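import Pool.Agent.Q251.KZ.FNG
import Pool.Agent.Q178.CD.Mvc

set_option autoImplicit false

/-! Project KZ: common lemmas for the jobs UY and LD. -/

namespace Pool.Agent.Q251.KZ

open Pool.Agent.Q276.CD Pool.Agent.Q276.KZ Pool.Agent.Q251.CD Finset MeasureTheory Filter

section su
variable {e C3 T k : ℝ} {J : ℕ} {K b : ℕ → ℕ}

lemma su_b (h : Su e C3 T k J K b) : ∀ j ≤ J, 10 ≤ b (j + 1) := by
  intro j
  induction j with
  | zero => intro _; exact h.b10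
  | succ j ih => intro hj; exact (ih (by omega)).trans (h.mono (j + 1) hj)

lemma su_K (h : Su e C3 T k J K b) (he : 0 < e) (he1 : e ≤ 1) : ∀ j ≤ J, 1 ≤ K j := by
  intro j hj
  have h1 := h.big j hj
  have h2 : (1:ℝ) ≤ 1 / e := by rw [le_div_iff₀ he]; linarith
  exact_mod_cast h2.trans h1

/-- the product of the lengths of the blocks -/
def M1 (b K : ℕ → ℕ) (J : ℕ) : ℕ := ∏ j ∈ range (J + 1), b (j + 1) ^ K j

lemma M1_sq (b K : ℕ → ℕ) (J : ℕ) : ∏ j ∈ range (J + 1), b (j + 1) ^ (2 * K j) = M1 b K J ^ 2 := by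
  unfold M1
  rw [← prod_pow]
  refine prod_congr rfl fun j _ => ?_
  rw [← pow_mul, mul_comm]

lemma su_len (h : Su e C3 T k J K b) : (4:ℝ) ^ b 0 * (M1 b K J : ℝ) ^ 2 ≤ T ^ e := by
  have h1 := h.len
  rw [M1_sq] at h1
  push_cast at h1
  exact h1

lemma su_ten (h : Su e C3 T k J K b) : (10:ℝ) ^ (∑ j ∈ range (J + 1), K j) ≤ M1 b K J := by
  unfold M1
  rw [← prod_pow_eq_pow_sum]
  push_cast
  refine prod_le_prod (fun _ _ => by positivity) fun j hj => ?_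
  rw [mem_range] at hj
  have : (10:ℝ) ≤ b (j + 1) := by exact_mod_cast su_b h j (by omega)
  exact pow_le_pow_left₀ (by norm_num) this _

lemma su_twenty (h : Su e C3 T k J K b) : (20:ℝ) ^ (∑ j ∈ range (J + 1), K j) ≤ (M1 b K J : ℝ) ^ 2 := by
  have h1 := su_ten h
  calc (20:ℝ) ^ (∑ j ∈ range (J + 1), K j) ≤ (100:ℝ) ^ (∑ j ∈ range (J + 1), K j) :=
        pow_le_pow_left₀ (by norm_num) (by norm_num) _
    _ = ((10:ℝ) ^ (∑ j ∈ range (J + 1), K j)) ^ 2 := by rw [← pow_mul, mul_comm, pow_mul]; norm_num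
    _ ≤ (M1 b K J : ℝ) ^ 2 := pow_le_pow_left₀ (by positivity) h1 2

lemma su_two (h : Su e C3 T k J K b) (he : 0 < e) (he1 : e ≤ 1) : (2:ℝ) ^ (J + 1) ≤ M1 b K J := by
  have h1 : J + 1 ≤ ∑ j ∈ range (J + 1), K j := by
    calc J + 1 = ∑ j ∈ range (J + 1), 1 := by simp
      _ ≤ ∑ j ∈ range (J + 1), K j := sum_le_sum fun j hj => su_K h he he1 j (by rw [mem_range] at hj; omega)
  calc (2:ℝ) ^ (J + 1) ≤ (2:ℝ) ^ (∑ j ∈ range (J + 1), K j) := pow_le_pow_right₀ (by norm_num) h1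
    _ ≤ (10:ℝ) ^ (∑ j ∈ range (J + 1), K j) := pow_le_pow_left₀ (by norm_num) (by norm_num) _
    _ ≤ _ := su_ten h

lemma su_M1 (h : Su e C3 T k J K b) : (1:ℝ) ≤ M1 b K J :=
  (one_le_pow₀ (by norm_num : (1:ℝ) ≤ 10)).trans (su_ten h)

lemma su_M2 (h : Su e C3 T k J K b) : (M1 b K J : ℝ) ^ 2 ≤ T ^ e := by
  refine le_trans ?_ (su_len h)
  have h4 : (1:ℝ) ≤ 4 ^ b 0 := one_le_pow₀ (by norm_num)
  nlinarith [sq_nonneg (M1 b K J : ℝ)]

lemma su_M1T (h : Su e C3 T k J K b) : (M1 b K J : ℝ) ≤ T ^ e := by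
  have h1 := su_M1 h
  have h2 := su_M2 h
  nlinarith

/-- the sum of `1/p` over a block -/
lemma blk_sum {b : ℕ → ℕ} {j : ℕ} (h : b j ≤ b (j + 1)) : ∑ p ∈ bp b j, 1 / (p : ℝ) = R1 (b (j + 1)) - R1 (b j) := by
  unfold R1 bp
  rw [eq_sub_iff_add_eq, ← sum_filter_add_sum_filter_not (Nat.primesBelow (b (j + 1))) (fun p => b j ≤ p)]
  congr 1
  refine sum_congr ?_ fun _ _ => rfl
  ext p
  rw [mem_filter, Nat.mem_primesBelow, Nat.mem_primesBelow]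
  constructor
  · rintro ⟨h1, h2⟩; exact ⟨⟨by omega, h2⟩, by omega⟩
  · rintro ⟨⟨h1, h2⟩, h3⟩; exact ⟨by omega, h2⟩

lemma tele (b : ℕ → ℕ) (J : ℕ) : ∑ j ∈ range (J + 1), (R1 (b (j + 1)) - R1 (b j)) = R1 (b (J + 1)) - R1 (b 0) :=
  sum_range_sub (fun j => R1 (b j)) (J + 1)

lemma one_le_WW (k : ℝ) (J : ℕ) (b : ℕ → ℕ) : 1 ≤ WW k J b := by
  unfold WW
  exact Real.one_le_exp (mul_nonneg (sq_nonneg k) (R1_nonneg _))

lemma exp_le_two {x : ℝ} (h0 : 0 ≤ x) (h1 : x ≤ 1) : Real.exp x ≤ 1 + 2 * x := by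
  have := Real.abs_exp_sub_one_sub_id_le (x := x) (by rw [abs_of_nonneg h0]; exact h1)
  have h2 := (abs_le.mp this).2
  nlinarith

end su

/-- the mean value theorem for a polynomial with few terms -/
lemma mv_f (a : ℕ → ℂ) (f : ℕ → ℝ) (Y : ℕ) {T1 T2 A B : ℝ} (h12 : T1 ≤ T2) (h1 : ∀ n, ‖a n‖ ≤ |f n|)
    (h2 : ∀ n : ℕ, f n ≠ 0 → (n : ℝ) ≤ B) (h3 : ∀ n, |f n| ≤ A) (hB : 0 ≤ B) :
    ∫ t in T1..T2, ‖Dp a Y (cl t)‖ ^ 2 ≤ (T2 - T1) * (∑ n ∈ (Icc 1 Y).filter (fun n => f n ≠ 0), f n ^ 2 / (n : ℝ)) +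
      4 * Y * (B * A) ^ 2 := by
  have hm := Pool.Agent.Q178.CD.t_MVC a Y T1 T2 h12
  have hA : 0 ≤ A := (abs_nonneg _).trans (h3 0)
  have e1 : ∑ n ∈ Icc 1 Y, ‖a n‖ ^ 2 / (n : ℝ) ≤ ∑ n ∈ (Icc 1 Y).filter (fun n => f n ≠ 0), f n ^ 2 / (n : ℝ) := by
    rw [sum_filter]
    refine sum_le_sum fun n _ => ?_
    by_cases hn : f n = 0
    · rw [if_neg (by simpa using hn)]
      have := h1 n
      rw [hn, abs_zero] at this
      have h0 : ‖a n‖ = 0 := le_antisymm this (norm_nonneg _)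
      rw [h0]; simp
    · rw [if_pos hn]
      refine div_le_div_of_nonneg_right ?_ (Nat.cast_nonneg n)
      rw [← sq_abs (f n)]
      exact pow_le_pow_left₀ (norm_nonneg _) (h1 n) 2
  have e2 : ∑ n ∈ Icc 1 Y, ‖a n‖ ≤ B * A := by
    calc ∑ n ∈ Icc 1 Y, ‖a n‖ ≤ ∑ n ∈ Icc 1 Y, |f n| := sum_le_sum fun n _ => h1 n
      _ = ∑ n ∈ (Icc 1 Y).filter (fun n => f n ≠ 0), |f n| := by
          rw [sum_filter]
          refine sum_congr rfl fun n _ => ?_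
          by_cases hn : f n = 0
          · rw [if_neg (by simpa using hn), hn, abs_zero]
          · rw [if_pos hn]
      _ ≤ ∑ n ∈ (Icc 1 Y).filter (fun n => f n ≠ 0), A := sum_le_sum fun n _ => h3 n
      _ = ((Icc 1 Y).filter (fun n => f n ≠ 0)).card * A := by rw [sum_const, nsmul_eq_mul]
      _ ≤ B * A := by
          refine mul_le_mul_of_nonneg_right ?_ hA
          have h5 : (Icc 1 Y).filter (fun n => f n ≠ 0) ⊆ Icc 1 ⌊B⌋₊ := by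
            intro n hn
            rw [mem_filter, mem_Icc] at hn
            rw [mem_Icc]
            exact ⟨hn.1.1, Nat.le_floor (h2 n hn.2)⟩
          have h6 := card_le_card h5
          rw [Nat.card_Icc] at h6
          have h7 : (((Icc 1 Y).filter (fun n => f n ≠ 0)).card : ℝ) ≤ (⌊B⌋₊ : ℝ) := by exact_mod_cast h6
          exact h7.trans (Nat.floor_le hB)
  have e3 := (abs_le.mp hm).2
  have e4 : (T2 - T1) * ∑ n ∈ Icc 1 Y, ‖a n‖ ^ 2 / (n : ℝ) ≤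
      (T2 - T1) * ∑ n ∈ (Icc 1 Y).filter (fun n => f n ≠ 0), f n ^ 2 / (n : ℝ) :=
    mul_le_mul_of_nonneg_left e1 (by linarith)
  have e5 : 4 * (Y : ℝ) * (∑ n ∈ Icc 1 Y, ‖a n‖) ^ 2 ≤ 4 * Y * (B * A) ^ 2 :=
    mul_le_mul_of_nonneg_left (pow_le_pow_left₀ (sum_nonneg fun _ _ => norm_nonneg _) e2 2) (by positivity)
  linarith

lemma sum_ite0 (p : ℕ) : (Summable fun a : ℕ => |(fun (_ : ℕ) (a : ℕ) => if a = 0 then (1:ℝ) else 0) p a| / (p : ℝ) ^ a) ∧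
    ∑' a : ℕ, (fun (_ : ℕ) (a : ℕ) => if a = 0 then (1:ℝ) else 0) p a / (p : ℝ) ^ a = 1 := by
  constructor
  · refine summable_of_ne_finset_zero (s := {0}) fun a ha => ?_
    rw [mem_singleton] at ha
    simp [ha]
  · rw [tsum_eq_single 0 fun a ha => by simp [ha]]
    simp

end Pool.Agent.Q251.KZ
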