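import Pool.Agent.Q251.KZ.FNG

set_option autoImplicit false

/-! Project KZ, lemma job DY: the whole interval. -/

namespace Pool.Agent.Q251.KZ

open Pool.Agent.Q276.CD Pool.Agent.Q276.KZ Pool.Agent.Q251.CD Finset MeasureTheory Filter

lemma zc : Continuous fun t : ℝ => ‖riemannZeta (cl t)‖ := by
  refine continuous_norm.comp (continuous_iff_continuousAt.mpr fun t => ?_)
  have h : cl t ≠ 1 := by
    intro h
    have := congrArg Complex.re h
    simp [cl] at this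
  have h2 : Continuous fun t : ℝ => cl t := by
    unfold cl
    fun_prop
  exact (differentiableAt_riemannZeta h).continuousAt.comp h2.continuousAt

lemma zkc {β : ℝ} (hβ : 0 ≤ β) : Continuous fun t : ℝ => ‖riemannZeta (cl t)‖ ^ β :=
  zc.rpow_const fun _ => Or.inr hβ

lemma dy_sum {f : ℝ → ℝ} (hf : Continuous f) (X : ℝ) (n : ℕ) :
    ∫ t in (X / 2 ^ n)..X, f t = ∑ i ∈ range n, ∫ t in (X / 2 ^ (i + 1))..(2 * (X / 2 ^ (i + 1))), f t := by
  induction n with
  | zero => simp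
  | succ n ih =>
    rw [sum_range_succ, ← ih]
    have h2 : 2 * (X / 2 ^ (n + 1)) = X / 2 ^ n := by rw [pow_succ]; field_simp
    rw [h2, add_comm (∫ t in (X / 2 ^ n)..X, f t)]
    exact (intervalIntegral.integral_add_adjacent_intervals (μ := volume) (hf.intervalIntegrable _ _)
      (hf.intervalIntegrable _ _)).symm

lemma int_mono_set {f : ℝ → ℝ} (hf : Continuous f) (h0 : ∀ t, 0 ≤ f t) {a b c d : ℝ} (h1 : c ≤ a) (h2 : a ≤ b)
    (h3 : b ≤ d) : ∫ t in a..b, f t ≤ ∫ t in c..d, f t :=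
  intervalIntegral.integral_mono_interval (μ := volume) h1 h2 h3 (ae_of_all _ h0) (hf.intervalIntegrable _ _)

lemma sm_bd {g : ℝ → ℝ} (hg : Continuous g) (hg0 : ∀ t, 0 ≤ g t) {T0 B : ℝ} (hT0 : 3 ≤ T0) (hB : 0 ≤ B)
    (H : ∀ T, T0 ≤ T → ∫ t in T..(2 * T), g t ≤ B * (T * Real.log T)) :
    ∃ C1 : ℝ, 0 ≤ C1 ∧ ∀ X, T0 ≤ X → ∫ t in T0..X, g t ≤ C1 * (X * Real.log X) := by
  have hc : 0 ≤ ∫ t in T0..(2 * T0), g t := intervalIntegral.integral_nonneg (by linarith) fun t _ => hg0 t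
  refine ⟨B + ∫ t in T0..(2 * T0), g t, by linarith, ?_⟩
  have hlog : ∀ X, T0 ≤ X → 1 ≤ Real.log X := by
    intro X hX
    rw [Real.le_log_iff_exp_le (by linarith)]
    have := Real.exp_one_lt_d9
    linarith
  have key : ∀ n : ℕ, ∀ X, T0 ≤ X → X ≤ 2 ^ (n + 1) * T0 →
      ∫ t in T0..X, g t ≤ (B + ∫ t in T0..(2 * T0), g t) * (X * Real.log X) := by
    have hbase : ∀ X, T0 ≤ X → X ≤ 2 * T0 →
        ∫ t in T0..X, g t ≤ (B + ∫ t in T0..(2 * T0), g t) * (X * Real.log X) := by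
      intro X h1 h2
      have h3 := int_mono_set hg hg0 (le_refl T0) h1 h2
      have h4 : 1 ≤ X * Real.log X := by nlinarith [hlog X h1]
      nlinarith
    intro n
    induction n with
    | zero => intro X h1 h2; exact hbase X h1 (by simpa using h2)
    | succ n ih =>
      intro X h1 h2
      by_cases h3 : X ≤ 2 * T0
      · exact hbase X h1 h3
      · push Not at h3
        have h4 := ih (X / 2) (by linarith) (by rw [pow_succ] at h2; linarith)
        have h5 := H (X / 2) (by linarith)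
        rw [show 2 * (X / 2) = X by ring] at h5
        have h6 : ∫ t in T0..X, g t = (∫ t in T0..(X / 2), g t) + ∫ t in (X / 2)..X, g t :=
          (intervalIntegral.integral_add_adjacent_intervals (hg.intervalIntegrable _ _) (hg.intervalIntegrable _ _)).symm
        rw [h6]
        have h7 : Real.log (X / 2) ≤ Real.log X := Real.log_le_log (by linarith) (by linarith)
        have h8 : X / 2 * Real.log (X / 2) ≤ X / 2 * Real.log X := mul_le_mul_of_nonneg_left h7 (by linarith)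
        have h9 : 0 ≤ X / 2 * Real.log X := mul_nonneg (by linarith) (by linarith [hlog X h1])
        have h10 : B * (X / 2 * Real.log (X / 2)) ≤ B * (X / 2 * Real.log X) := mul_le_mul_of_nonneg_left h8 hB
        have h11 : (B + ∫ t in T0..(2 * T0), g t) * (X / 2 * Real.log (X / 2)) ≤
            (B + ∫ t in T0..(2 * T0), g t) * (X / 2 * Real.log X) := mul_le_mul_of_nonneg_left h8 (by linarith)
        nlinarith
  intro X hX
  obtain ⟨n, hn⟩ := pow_unbounded_of_one_lt (X / T0) (by norm_num : (1:ℝ) < 2)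
  refine key n X hX ?_
  rw [div_lt_iff₀ (by linarith)] at hn
  rw [pow_succ]
  nlinarith

lemma sum_half (n : ℕ) : ∑ i ∈ range n, (1:ℝ) / 2 ^ (i + 1) = 1 - 1 / 2 ^ n := by
  induction n with
  | zero => simp
  | succ n ih => rw [sum_range_succ, ih, pow_succ]; field_simp; ring

lemma sum_half2 (n : ℕ) : ∑ i ∈ range n, ((i:ℝ) + 2) / 2 ^ (i + 1) = 3 - ((n:ℝ) + 3) / 2 ^ n := by
  induction n with
  | zero => simp
  | succ n ih => rw [sum_range_succ, ih, pow_succ]; push_cast; field_simp; ring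

lemma dy_main {f : ℝ → ℝ} (hf : Continuous f) {X L κ η : ℝ} {n : ℕ} (hX : 0 < X) (hL : 1 ≤ L) (hκ0 : 0 ≤ κ)
    (hκ : κ ≤ 1) (hη : 0 ≤ η) (h1 : L - 1 ≤ Real.log X) (h2 : Real.log X ≤ L + 1) (hn : (n:ℝ) + 2 ≤ L / 2)
    (H : ∀ i < n, |(∫ t in (X / 2 ^ (i + 1))..(2 * (X / 2 ^ (i + 1))), f t) -
      (X / 2 ^ (i + 1)) * Real.log (X / 2 ^ (i + 1)) ^ κ| ≤ η * ((X / 2 ^ (i + 1)) * Real.log (X / 2 ^ (i + 1)) ^ κ)) :
    ∫ t in (X / 2 ^ n)..X, f t ≤ (1 + η) * (X * (L ^ κ * (1 + 1 / L))) ∧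
    X * (L ^ κ * (1 - 1 / 2 ^ n - 3 / L)) - η * (X * (L ^ κ * (1 + 1 / L))) ≤ ∫ t in (X / 2 ^ n)..X, f t := by
  have hL0 : 0 < L := by linarith
  have hLκ : 0 < L ^ κ := Real.rpow_pos_of_pos hL0 _
  have hl2 : Real.log 2 ≤ 1 := by have := Real.log_two_lt_d9; linarith
  have hl20 : 0 ≤ Real.log 2 := Real.log_nonneg (by norm_num)
  have hlog : ∀ i : ℕ, Real.log (X / 2 ^ (i + 1)) = Real.log X - (i + 1) * Real.log 2 := by
    intro i
    rw [Real.log_div hX.ne' (by positivity), Real.log_pow]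
    push_cast; ring
  have hlow : ∀ i < n, L * (1 - ((i:ℝ) + 2) / L) ≤ Real.log (X / 2 ^ (i + 1)) := by
    intro i _
    rw [hlog]
    have : L * (1 - ((i:ℝ) + 2) / L) = L - (i + 2) := by field_simp
    rw [this]
    have hi : (0:ℝ) ≤ i := Nat.cast_nonneg i
    nlinarith
  have hfr : ∀ i < n, ((i:ℝ) + 2) / L ≤ 1 / 2 := by
    intro i hi
    rw [div_le_iff₀ hL0]
    have : (i:ℝ) + 1 ≤ n := by exact_mod_cast hi
    linarith
  have hup : ∀ i < n, Real.log (X / 2 ^ (i + 1)) ^ κ ≤ L ^ κ * (1 + 1 / L) := by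
    intro i hi
    have g1 : 0 ≤ Real.log (X / 2 ^ (i + 1)) := by
      refine le_trans ?_ (hlow i hi)
      have := hfr i hi
      exact mul_nonneg hL0.le (by linarith)
    have g2 : Real.log (X / 2 ^ (i + 1)) ≤ L * (1 + 1 / L) := by
      rw [hlog]
      have : L * (1 + 1 / L) = L + 1 := by field_simp
      rw [this]
      have hi : (0:ℝ) ≤ i := Nat.cast_nonneg i
      nlinarith
    have g3 : (1:ℝ) ≤ 1 + 1 / L := by
      have : 0 < 1 / L := by positivity
      linarith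
    calc Real.log (X / 2 ^ (i + 1)) ^ κ ≤ (L * (1 + 1 / L)) ^ κ := Real.rpow_le_rpow g1 g2 hκ0
      _ = L ^ κ * (1 + 1 / L) ^ κ := Real.mul_rpow hL0.le (by linarith)
      _ ≤ L ^ κ * (1 + 1 / L) := by
          refine mul_le_mul_of_nonneg_left ?_ hLκ.le
          calc (1 + 1 / L) ^ κ ≤ (1 + 1 / L) ^ (1:ℝ) := Real.rpow_le_rpow_of_exponent_le g3 hκ
            _ = _ := Real.rpow_one _
  have hdn : ∀ i < n, L ^ κ * (1 - ((i:ℝ) + 2) / L) ≤ Real.log (X / 2 ^ (i + 1)) ^ κ := by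
    intro i hi
    have g0 : (0:ℝ) < 1 - ((i:ℝ) + 2) / L := by linarith [hfr i hi]
    have g1 : 1 - ((i:ℝ) + 2) / L ≤ 1 := by
      have : 0 ≤ ((i:ℝ) + 2) / L := by positivity
      linarith
    calc L ^ κ * (1 - ((i:ℝ) + 2) / L) ≤ L ^ κ * (1 - ((i:ℝ) + 2) / L) ^ κ := by
          refine mul_le_mul_of_nonneg_left ?_ hLκ.le
          calc 1 - ((i:ℝ) + 2) / L = (1 - ((i:ℝ) + 2) / L) ^ (1:ℝ) := (Real.rpow_one _).symm
            _ ≤ _ := Real.rpow_le_rpow_of_exponent_ge g0 g1 hκ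
      _ = (L * (1 - ((i:ℝ) + 2) / L)) ^ κ := (Real.mul_rpow hL0.le g0.le).symm
      _ ≤ _ := Real.rpow_le_rpow (by positivity) (hlow i hi) hκ0
  set A : ℝ := ∑ i ∈ range n, (X / 2 ^ (i + 1)) * Real.log (X / 2 ^ (i + 1)) ^ κ with hA
  have hAup : A ≤ X * (L ^ κ * (1 + 1 / L)) := by
    have : A ≤ ∑ i ∈ range n, (1 / 2 ^ (i + 1)) * (X * (L ^ κ * (1 + 1 / L))) := by
      refine sum_le_sum fun i hi => ?_
      rw [mem_range] at hi
      have e1 : X / 2 ^ (i + 1) * Real.log (X / 2 ^ (i + 1)) ^ κ ≤ X / 2 ^ (i + 1) * (L ^ κ * (1 + 1 / L)) :=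
        mul_le_mul_of_nonneg_left (hup i hi) (by positivity)
      refine e1.trans (le_of_eq ?_)
      ring
    refine this.trans ?_
    rw [← sum_mul, sum_half]
    have e2 : (0:ℝ) < 1 / 2 ^ n := by positivity
    have e3 : 0 ≤ X * (L ^ κ * (1 + 1 / L)) := by positivity
    nlinarith
  have hAdn : X * (L ^ κ * (1 - 1 / 2 ^ n - 3 / L)) ≤ A := by
    have : ∑ i ∈ range n, (X * L ^ κ) * (1 / 2 ^ (i + 1) - (((i:ℝ) + 2) / 2 ^ (i + 1)) / L) ≤ A := by
      refine sum_le_sum fun i hi => ?_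
      rw [mem_range] at hi
      have e1 : X / 2 ^ (i + 1) * (L ^ κ * (1 - ((i:ℝ) + 2) / L)) ≤ X / 2 ^ (i + 1) * Real.log (X / 2 ^ (i + 1)) ^ κ :=
        mul_le_mul_of_nonneg_left (hdn i hi) (by positivity)
      refine le_trans (le_of_eq ?_) e1
      field_simp
    refine le_trans ?_ this
    rw [← mul_sum, sum_sub_distrib, sum_half, ← sum_div, sum_half2]
    have e2 : 0 ≤ X * L ^ κ := by positivity
    rw [← mul_assoc]
    refine mul_le_mul_of_nonneg_left ?_ e2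
    have e3 : (3 - ((n:ℝ) + 3) / 2 ^ n) / L ≤ 3 / L := by
      refine div_le_div_of_nonneg_right ?_ hL0.le
      have : 0 ≤ ((n:ℝ) + 3) / 2 ^ n := by positivity
      linarith
    linarith
  have hmain : |(∫ t in (X / 2 ^ n)..X, f t) - A| ≤ η * A := by
    rw [dy_sum hf, hA, ← sum_sub_distrib, mul_sum]
    exact (abs_sum_le_sum_abs _ _).trans (sum_le_sum fun i hi => H i (mem_range.mp hi))
  have hm := abs_le.mp hmain
  have hηA : η * A ≤ η * (X * (L ^ κ * (1 + 1 / L))) := mul_le_mul_of_nonneg_left hAup hη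
  constructor
  · linarith [hm.2]
  · linarith [hm.1]

lemma pow_le_one_add {z β : ℝ} (hz : 0 ≤ z) (h0 : 0 ≤ β) (h2 : β ≤ 2) : z ^ β ≤ 1 + z ^ (2:ℝ) := by
  have h3 : 0 ≤ z ^ (2:ℝ) := Real.rpow_nonneg hz _
  rcases le_total z 1 with h | h
  · have := Real.rpow_le_one hz h h0
    linarith
  · have := Real.rpow_le_rpow_of_exponent_le h h2
    linarith

/-- the choice of the number of steps -/
lemma choose_n {L : ℝ} (hL : 30 ≤ L) : ∃ n : ℕ, (2:ℝ) ^ n ≤ 2 * L ^ 2 ∧ L ^ 2 ≤ 2 ^ n ∧ (n:ℝ) + 2 ≤ L / 2 := by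
  obtain ⟨n, h1, h2⟩ := exists_nat_pow_near (x := 2 * L ^ 2) (y := 2) (by nlinarith) (by norm_num)
  refine ⟨n, h1, ?_, ?_⟩
  · have h3 : (2:ℝ) ^ (n + 1) = 2 ^ n * 2 := pow_succ _ _
    rw [h3] at h2; linarith
  · have hL0 : 0 < L := by linarith
    have h3 := Real.log_le_log (by positivity) h1
    rw [Real.log_pow, Real.log_mul (by norm_num) (by positivity), Real.log_pow] at h3
    push_cast at h3
    have h4 : Real.log L ≤ L / 16 + 2 := by
      have h5 := Real.log_le_sub_one_of_pos (show 0 < L / 16 by positivity)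
      rw [Real.log_div hL0.ne' (by norm_num)] at h5
      have h6 : Real.log 16 = 4 * Real.log 2 := by
        rw [show (16:ℝ) = 2 ^ 4 by norm_num, Real.log_pow]; norm_num
      have := Real.log_two_lt_d9
      linarith
    have h5 := Real.log_two_lt_d9
    have h6 := Real.log_two_gt_d9
    have hn : (0:ℝ) ≤ n := Nat.cast_nonneg n
    nlinarith

lemma ev_x (a : ℝ) : ∀ᶠ T : ℝ in atTop, a ≤ T / Real.log T := by
  filter_upwards [ev_log (c := 1) (e := 1 / 2) (by norm_num) (by norm_num), eventually_ge_atTop (16:ℝ),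
    Real.tendsto_log_atTop.eventually_ge_atTop 4,
    (tendsto_rpow_atTop (by norm_num : (0:ℝ) < 1 / 2)).eventually_ge_atTop a] with T h1 h2 h3 h4
  rw [le_div_iff₀ (by linarith)]
  have hT : 0 < T := by linarith
  have e2 : T = T ^ ((1:ℝ) / 2) * T ^ ((1:ℝ) / 2) := by
    rw [← Real.rpow_add hT]; norm_num
  have e3 : 0 < T ^ ((1:ℝ) / 2) := Real.rpow_pos_of_pos hT _
  rcases le_total a 0 with ha | ha
  · nlinarith
  · calc a * Real.log T ≤ T ^ ((1:ℝ) / 2) * (1 * T ^ ((1:ℝ) / 2)) :=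
          mul_le_mul h4 h1 (by linarith) e3.le
      _ = T := by rw [one_mul, ← e2]

lemma ev_y (a : ℝ) : ∀ᶠ T : ℝ in atTop, a ≤ T / (4 * Real.log T ^ 2) := by
  filter_upwards [ev_log (c := 1 / 2) (e := 1 / 4) (by norm_num) (by norm_num), eventually_ge_atTop (16:ℝ),
    Real.tendsto_log_atTop.eventually_ge_atTop 4,
    (tendsto_rpow_atTop (by norm_num : (0:ℝ) < 1 / 2)).eventually_ge_atTop a] with T h1 h2 h3 h4
  have hT : 0 < T := by linarith
  have hL : 0 < Real.log T := by linarith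
  have e1 : Real.log T ^ 2 ≤ (1 / 2 * T ^ ((1:ℝ) / 4)) ^ 2 := pow_le_pow_left₀ hL.le h1 2
  have e2 : (T ^ ((1:ℝ) / 4)) ^ 2 = T ^ ((1:ℝ) / 2) := by
    rw [← Real.rpow_natCast, ← Real.rpow_mul hT.le]; norm_num
  have e3 : T = T ^ ((1:ℝ) / 2) * T ^ ((1:ℝ) / 2) := by
    rw [← Real.rpow_add hT]; norm_num
  have e4 : 0 < T ^ ((1:ℝ) / 2) := Real.rpow_pos_of_pos hT _
  rw [le_div_iff₀ (by positivity)]
  have e5 : 4 * Real.log T ^ 2 ≤ T ^ ((1:ℝ) / 2) := by nlinarith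
  rcases le_total a 0 with ha | ha
  · nlinarith [sq_nonneg (Real.log T)]
  · calc a * (4 * Real.log T ^ 2) ≤ T ^ ((1:ℝ) / 2) * T ^ ((1:ℝ) / 2) :=
          mul_le_mul h4 e5 (by positivity) e4.le
      _ = T := e3.symm

lemma ev_k : ∀ᶠ T : ℝ in atTop, (Real.log T / 2) ^ (-(1 / 5) : ℝ) ≤ Real.log T ^ (-(1 / 6) : ℝ) / 2 := by
  have h := (tendsto_rpow_atTop (by norm_num : (0:ℝ) < 1 / 30)).comp Real.tendsto_log_atTop
  filter_upwards [h.eventually_ge_atTop 4, Real.tendsto_log_atTop.eventually_ge_atTop 4] with T h1 h2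
  simp only [Function.comp] at h1
  have hL : 0 < Real.log T := by linarith
  have e1 : (Real.log T / 2) ^ (-(1 / 5) : ℝ) = Real.log T ^ (-(1 / 5) : ℝ) * 2 ^ ((1:ℝ) / 5) := by
    rw [Real.div_rpow hL.le (by norm_num), Real.rpow_neg (by norm_num : (0:ℝ) ≤ 2), div_inv_eq_mul]
  have e2 : (2:ℝ) ^ ((1:ℝ) / 5) ≤ 2 := by
    calc (2:ℝ) ^ ((1:ℝ) / 5) ≤ 2 ^ (1:ℝ) := Real.rpow_le_rpow_of_exponent_le (by norm_num) (by norm_num)
      _ = 2 := Real.rpow_one _
  have e3 : Real.log T ^ (-(1 / 6) : ℝ) = Real.log T ^ (-(1 / 5) : ℝ) * Real.log T ^ ((1:ℝ) / 30) := by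
    rw [← Real.rpow_add hL]; norm_num
  have e4 : 0 < Real.log T ^ (-(1 / 5) : ℝ) := Real.rpow_pos_of_pos hL _
  rw [e1, e3]
  nlinarith

lemma klog {k : ℝ} (h0 : 0 < k) (h1 : k ≤ 1) : 1 / 2 ≤ Real.log (2 / k) := by
  have h2 : Real.log 2 ≤ Real.log (2 / k) := by
    refine Real.log_le_log (by norm_num) ?_
    rw [le_div_iff₀ h0]; nlinarith
  have := Real.log_two_gt_d9
  linarith

theorem t_DY : P_DY := by
  rintro ⟨C, hC, h⟩
  obtain ⟨T1, hT1⟩ := eventually_atTop.mp h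
  set T0 : ℝ := max T1 3 with hT0def
  have hT03 : 3 ≤ T0 := le_max_right _ _
  have hT01 : T1 ≤ T0 := le_max_left _ _
  have hg2 : Continuous fun t : ℝ => ‖riemannZeta (cl t)‖ ^ (2:ℝ) := zkc (by norm_num)
  have hg20 : ∀ t : ℝ, 0 ≤ ‖riemannZeta (cl t)‖ ^ (2:ℝ) := fun t => Real.rpow_nonneg (norm_nonneg _) _
  have hlog1 : ∀ T, T0 ≤ T → 1 ≤ Real.log T := by
    intro T hT
    rw [Real.le_log_iff_exp_le (by linarith)]
    have := Real.exp_one_lt_d9
    linarith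
  obtain ⟨C1, hC10, hC1⟩ := sm_bd hg2 hg20 hT03 (B := 1 + C) (by linarith) (fun T hT => by
    have h1 := hT1 T (hT01.trans hT) 1 (Real.rpow_le_one_of_one_le_of_nonpos (hlog1 T hT) (by norm_num)) le_rfl
    have h2 := (abs_le.mp h1).2
    simp only [mul_one, one_pow, Real.rpow_one, div_one] at h2
    have h3 : 0 ≤ T * Real.log T := mul_nonneg (by linarith) (by linarith [hlog1 T hT])
    have h4 : Real.log 2 ≤ 1 := by have := Real.log_two_lt_d9; linarith
    have h5 : C * Real.log 2 * (T * Real.log T) ≤ C * 1 * (T * Real.log T) :=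
      mul_le_mul_of_nonneg_right (mul_le_mul_of_nonneg_left h4 hC.le) h3
    linarith)
  refine ⟨8 * C1 + 30 + 8 * C, by positivity, fun x => ?_⟩
  set cx : ℝ := |x| + ∫ t in (-|x|)..T0, ‖riemannZeta (cl t)‖ ^ (2:ℝ) with hcx
  filter_upwards [eventually_ge_atTop (16:ℝ), Real.tendsto_log_atTop.eventually_ge_atTop 30, ev_x |x|, ev_x cx,
    ev_y (T0 + |x|), ev_k] with T hT16 hL30 hx1 hx2 hy hk β hβ1 hβ2
  set L := Real.log T with hLdef
  have hT0 : 0 < T := by linarith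
  have hL0 : 0 < L := by linarith
  -- the order
  obtain ⟨k, rfl⟩ : ∃ k, β = 2 * k := ⟨β / 2, by ring⟩
  have e0 : 0 < L ^ (-(1 / 6) : ℝ) := Real.rpow_pos_of_pos hL0 _
  have hk0 : 0 < k := by linarith
  have hk1 : k ≤ 1 := by linarith
  have hkL : (L / 2) ^ (-(1 / 5) : ℝ) ≤ k := by linarith
  have hkL1 : 1 / L ≤ k := by
    refine le_trans ?_ hkL
    calc 1 / L = L ^ (-1 : ℝ) := by rw [Real.rpow_neg_one, one_div]
      _ ≤ L ^ (-(1 / 5) : ℝ) := Real.rpow_le_rpow_of_exponent_le (by linarith) (by norm_num)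
      _ ≤ (L / 2) ^ (-(1 / 5) : ℝ) :=
          Real.rpow_le_rpow_of_nonpos (by positivity) (by linarith) (by norm_num)
  have hk2 : k ^ 2 ≤ 1 := pow_le_one₀ hk0.le hk1
  have hkl := klog hk0 hk1
  set Λ := Real.log (2 / k) with hΛ
  have hη : 0 ≤ C * k * Λ := by positivity
  -- continuity
  have hF : Continuous fun t : ℝ => ‖riemannZeta (cl t)‖ ^ (2 * k) := zkc (by linarith)
  have hF0 : ∀ t : ℝ, 0 ≤ ‖riemannZeta (cl t)‖ ^ (2 * k) := fun t => Real.rpow_nonneg (norm_nonneg _) _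
  obtain ⟨n, hn1, hn2, hn3⟩ := choose_n hL30
  have h2n : (0:ℝ) < 2 ^ n := by positivity
  have hLκ : 1 ≤ L ^ (k ^ 2) := Real.one_le_rpow (by linarith) (sq_nonneg k)
  -- the dyadic decomposition
  have hdy : ∀ X : ℝ, T / 2 ≤ X → X ≤ 2 * T → T0 + |x| ≤ X / 2 ^ n ∧
      ∫ t in (X / 2 ^ n)..X, ‖riemannZeta (cl t)‖ ^ (2 * k) ≤
        (1 + C * k * Λ) * (X * (L ^ (k ^ 2) * (1 + 1 / L))) ∧
      X * (L ^ (k ^ 2) * (1 - 1 / 2 ^ n - 3 / L)) - C * k * Λ * (X * (L ^ (k ^ 2) * (1 + 1 / L))) ≤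
        ∫ t in (X / 2 ^ n)..X, ‖riemannZeta (cl t)‖ ^ (2 * k) := by
    intro X hX1 hX2
    have hX0 : 0 < X := by linarith
    have hXn : T0 + |x| ≤ X / 2 ^ n := by
      refine hy.trans ?_
      rw [div_le_div_iff₀ (by positivity) h2n]
      calc T * 2 ^ n ≤ T * (2 * L ^ 2) := mul_le_mul_of_nonneg_left hn1 hT0.le
        _ = T / 2 * (4 * L ^ 2) := by ring
        _ ≤ X * (4 * L ^ 2) := mul_le_mul_of_nonneg_right hX1 (by positivity)
    have hlX1 : L - 1 ≤ Real.log X := by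
      have : Real.log (T / 2) ≤ Real.log X := Real.log_le_log (by linarith) hX1
      rw [Real.log_div hT0.ne' (by norm_num)] at this
      have := Real.log_two_lt_d9
      linarith
    have hlX2 : Real.log X ≤ L + 1 := by
      have : Real.log X ≤ Real.log (2 * T) := Real.log_le_log hX0 hX2
      rw [Real.log_mul (by norm_num) hT0.ne'] at this
      have := Real.log_two_lt_d9
      linarith
    refine ⟨hXn, dy_main hF hX0 (by linarith) (sq_nonneg k) hk2 hη hlX1 hlX2 hn3 fun i hi => ?_⟩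
    have hpow : (2:ℝ) ^ (i + 1) ≤ 2 ^ n := pow_le_pow_right₀ (by norm_num) hi
    have g1 : X / 2 ^ n ≤ X / 2 ^ (i + 1) := div_le_div_of_nonneg_left hX0.le (by positivity) hpow
    have g2 : T1 ≤ X / 2 ^ (i + 1) := by linarith [abs_nonneg x]
    have g3 : L / 2 ≤ Real.log (X / 2 ^ (i + 1)) := by
      rw [Real.log_div hX0.ne' (by positivity), Real.log_pow]
      have q1 : ((i + 1 : ℕ) : ℝ) ≤ n := by exact_mod_cast hi
      have q2 : Real.log 2 ≤ 1 := by have := Real.log_two_lt_d9; linarith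
      have q3 : 0 ≤ Real.log 2 := Real.log_nonneg (by norm_num)
      have q4 : ((i + 1 : ℕ) : ℝ) * Real.log 2 ≤ n * 1 := mul_le_mul q1 q2 q3 (Nat.cast_nonneg _)
      linarith
    have g4 : Real.log (X / 2 ^ (i + 1)) ^ (-(1 / 5) : ℝ) ≤ k :=
      (Real.rpow_le_rpow_of_nonpos (by positivity) g3 (by norm_num)).trans hkL
    have := hT1 _ g2 k g4 hk1
    exact this
  -- the scaling
  have hsub : (∫ u in (0:ℝ)..1, ‖riemannZeta (1 / 2 + (x : ℂ) * Complex.I + (u : ℂ) * (T : ℂ) * Complex.I)‖ ^ (2 * k)) =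
      T⁻¹ * ∫ t in x..(x + T), ‖riemannZeta (cl t)‖ ^ (2 * k) := by
    have := intervalIntegral.integral_comp_add_mul (a := 0) (b := 1) (fun t : ℝ => ‖riemannZeta (cl t)‖ ^ (2 * k)) hT0.ne' x
    rw [mul_zero, add_zero, mul_one, smul_eq_mul] at this
    rw [← this]
    congr 1
    funext u
    congr 3
    unfold cl
    push_cast
    ring
  rw [hsub]
  have hpow4 : (2 * k) ^ 2 / 4 = k ^ 2 := by ring
  have hlog4 : Real.log (4 / (2 * k)) = Λ := by rw [hΛ]; congr 1; field_simp; norm_num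
  rw [hpow4, hlog4]
  set S := T * L ^ (k ^ 2) with hS
  have hS0 : 0 < S := by positivity
  have hTS : T ≤ S := by rw [hS]; nlinarith
  have hL1 : 0 < 1 / L := by positivity
  have hL1' : 1 / L ≤ 1 / 30 := one_div_le_one_div_of_le (by norm_num) hL30
  have hxT : |x| ≤ T * (1 / L) := by rw [mul_one_div]; exact hx1
  have hx0 := abs_nonneg x
  have hcxT : cx ≤ T * (1 / L) := by rw [mul_one_div]; exact hx2
  have hxx := neg_abs_le x
  have hxx' := le_abs_self x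
  have hxhalf : |x| ≤ T / 2 := by nlinarith
  -- the upper bound
  have hupper : ∫ t in x..(x + T), ‖riemannZeta (cl t)‖ ^ (2 * k) ≤
      S * (1 + (4 * C1 + 10) * (1 / L) + 4 * (C * k * Λ)) := by
    obtain ⟨a1, a2, -⟩ := hdy (T + |x|) (by linarith) (by linarith)
    set X := T + |x| with hX
    set Xn := X / 2 ^ n with hXn
    have hXnX : Xn ≤ X := div_le_self (by linarith) (one_le_pow₀ (by norm_num))
    have b1 : ∫ t in x..(x + T), ‖riemannZeta (cl t)‖ ^ (2 * k) ≤ ∫ t in (-|x|)..X, ‖riemannZeta (cl t)‖ ^ (2 * k) :=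
      int_mono_set hF hF0 hxx (by linarith) (by linarith)
    have b2 : ∫ t in (-|x|)..X, ‖riemannZeta (cl t)‖ ^ (2 * k) = (∫ t in (-|x|)..Xn, ‖riemannZeta (cl t)‖ ^ (2 * k)) +
        ∫ t in Xn..X, ‖riemannZeta (cl t)‖ ^ (2 * k) :=
      (intervalIntegral.integral_add_adjacent_intervals (hF.intervalIntegrable _ _) (hF.intervalIntegrable _ _)).symm
    have b3 : ∫ t in (-|x|)..Xn, ‖riemannZeta (cl t)‖ ^ (2 * k) ≤ ∫ t in (-|x|)..Xn, (1 + ‖riemannZeta (cl t)‖ ^ (2:ℝ)) :=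
      intervalIntegral.integral_mono_on (by linarith) (hF.intervalIntegrable _ _)
        ((continuous_const.add hg2).intervalIntegrable _ _) fun t _ =>
        pow_le_one_add (norm_nonneg _) (by linarith) hβ2
    have b4 : ∫ t in (-|x|)..Xn, (1 + ‖riemannZeta (cl t)‖ ^ (2:ℝ)) = (Xn + |x|) +
        ((∫ t in (-|x|)..T0, ‖riemannZeta (cl t)‖ ^ (2:ℝ)) + ∫ t in T0..Xn, ‖riemannZeta (cl t)‖ ^ (2:ℝ)) := by
      rw [intervalIntegral.integral_add (continuous_const.intervalIntegrable _ _) (hg2.intervalIntegrable _ _),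
        intervalIntegral.integral_add_adjacent_intervals (hg2.intervalIntegrable _ _) (hg2.intervalIntegrable _ _)]
      simp
    have b5 := hC1 Xn (by linarith)
    have b6 : Xn ≤ 2 * T * (1 / L) ^ 2 := by
      rw [hXn, div_le_iff₀ h2n]
      have : 2 * T * (1 / L) ^ 2 * L ^ 2 = 2 * T := by field_simp
      have h3 : 2 * T * (1 / L) ^ 2 * L ^ 2 ≤ 2 * T * (1 / L) ^ 2 * 2 ^ n :=
        mul_le_mul_of_nonneg_left hn2 (by positivity)
      linarith
    have b7 : Real.log Xn ≤ 2 * L := by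
      have h3 : Real.log Xn ≤ Real.log (2 * T) := Real.log_le_log (by linarith) (by linarith)
      rw [Real.log_mul (by norm_num) hT0.ne'] at h3
      have := Real.log_two_lt_d9
      linarith
    have b8 : Xn * Real.log Xn ≤ 4 * (T * (1 / L)) := by
      calc Xn * Real.log Xn ≤ (2 * T * (1 / L) ^ 2) * (2 * L) :=
            mul_le_mul b6 b7 (Real.log_nonneg (by linarith)) (by positivity)
        _ = 4 * (T * (1 / L)) := by field_simp; ring
    have b9 : C1 * (Xn * Real.log Xn) ≤ C1 * (4 * (T * (1 / L))) := mul_le_mul_of_nonneg_left b8 hC10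
    have b10 : Xn ≤ T * (1 / L) := by
      refine b6.trans ?_
      have : 2 * T * (1 / L) ^ 2 = (T * (1 / L)) * (2 * (1 / L)) := by ring
      rw [this]
      have h3 : 0 < T * (1 / L) := by positivity
      exact mul_le_of_le_one_right h3.le (by linarith)
    have b11 : ∫ t in (-|x|)..Xn, ‖riemannZeta (cl t)‖ ^ (2 * k) ≤ (4 * C1 + 2) * (T * (1 / L)) := by
      have : cx = |x| + ∫ t in (-|x|)..T0, ‖riemannZeta (cl t)‖ ^ (2:ℝ) := hcx
      linarith
    have b12 : (4 * C1 + 2) * (T * (1 / L)) ≤ (4 * C1 + 2) * (S * (1 / L)) :=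
      mul_le_mul_of_nonneg_left (mul_le_mul_of_nonneg_right hTS hL1.le) (by positivity)
    have b13 : X * (L ^ (k ^ 2) * (1 + 1 / L)) ≤ S * (1 + 3 * (1 / L)) := by
      have h3 : X ≤ T * (1 + 1 / L) := by rw [hX]; linarith
      calc X * (L ^ (k ^ 2) * (1 + 1 / L)) ≤ T * (1 + 1 / L) * (L ^ (k ^ 2) * (1 + 1 / L)) :=
            mul_le_mul_of_nonneg_right h3 (by positivity)
        _ = S * ((1 + 1 / L) * (1 + 1 / L)) := by rw [hS]; ring
        _ ≤ S * (1 + 3 * (1 / L)) := by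
            refine mul_le_mul_of_nonneg_left ?_ hS0.le
            have h4 : 1 / L * (1 / L) ≤ 1 / L := mul_le_of_le_one_right hL1.le (by linarith)
            have h5 : (1 + 1 / L) * (1 + 1 / L) = 1 + 2 * (1 / L) + 1 / L * (1 / L) := by ring
            rw [h5]
            linarith
    have b14 : (1 + C * k * Λ) * (X * (L ^ (k ^ 2) * (1 + 1 / L))) ≤ (1 + C * k * Λ) * (S * (1 + 3 * (1 / L))) :=
      mul_le_mul_of_nonneg_left b13 (by linarith)
    have b15 : (1 + C * k * Λ) * (S * (1 + 3 * (1 / L))) ≤ S * (1 + 3 * (1 / L) + 4 * (C * k * Λ)) := by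
      have : (1 + C * k * Λ) * (S * (1 + 3 * (1 / L))) = S * (1 + 3 * (1 / L) + (C * k * Λ) * (1 + 3 * (1 / L))) := by ring
      rw [this]
      refine mul_le_mul_of_nonneg_left ?_ hS0.le
      have : (C * k * Λ) * (1 + 3 * (1 / L)) ≤ (C * k * Λ) * 4 := mul_le_mul_of_nonneg_left (by linarith) hη
      linarith
    have b16 : 0 ≤ S * (1 / L) := by positivity
    have b17 : ∫ t in x..(x + T), ‖riemannZeta (cl t)‖ ^ (2 * k) ≤
        (4 * C1 + 2) * (S * (1 / L)) + S * (1 + 3 * (1 / L) + 4 * (C * k * Λ)) := by linarith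
    refine b17.trans ?_
    have b18 : S * (1 + (4 * C1 + 10) * (1 / L) + 4 * (C * k * Λ)) =
        (4 * C1 + 2) * (S * (1 / L)) + S * (1 + 3 * (1 / L) + 4 * (C * k * Λ)) + 5 * (S * (1 / L)) := by ring
    linarith
  -- the lower bound
  have hlower : S * (1 - 5 * (1 / L) - 2 * (C * k * Λ)) ≤ ∫ t in x..(x + T), ‖riemannZeta (cl t)‖ ^ (2 * k) := by
    obtain ⟨a1, -, a3⟩ := hdy (T - |x|) (by linarith) (by linarith)
    set X := T - |x| with hX
    have hXnX : X / 2 ^ n ≤ X := div_le_self (by linarith) (one_le_pow₀ (by norm_num))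
    have b1 : ∫ t in (X / 2 ^ n)..X, ‖riemannZeta (cl t)‖ ^ (2 * k) ≤
        ∫ t in x..(x + T), ‖riemannZeta (cl t)‖ ^ (2 * k) :=
      int_mono_set hF hF0 (by linarith) hXnX (by linarith)
    refine le_trans ?_ (a3.trans b1)
    have c1 : X * (L ^ (k ^ 2) * (1 + 1 / L)) ≤ S * 2 := by
      calc X * (L ^ (k ^ 2) * (1 + 1 / L)) ≤ T * (L ^ (k ^ 2) * 2) :=
            mul_le_mul (by linarith) (mul_le_mul_of_nonneg_left (by linarith) (by linarith)) (by positivity) hT0.le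
        _ = S * 2 := by rw [hS]; ring
    have c2 : C * k * Λ * (X * (L ^ (k ^ 2) * (1 + 1 / L))) ≤ C * k * Λ * (S * 2) := mul_le_mul_of_nonneg_left c1 hη
    have c3 : 1 / (2:ℝ) ^ n ≤ 1 / L := by
      refine one_div_le_one_div_of_le hL0 ?_
      nlinarith
    have c4 : 3 / L = 3 * (1 / L) := by ring
    have c5 : 1 - 4 * (1 / L) ≤ 1 - 1 / 2 ^ n - 3 / L := by rw [c4]; linarith
    have c6 : S * (1 - 5 * (1 / L)) ≤ X * (L ^ (k ^ 2) * (1 - 1 / 2 ^ n - 3 / L)) := by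
      have h3 : T * (1 - 1 / L) ≤ X := by rw [hX]; linarith
      calc S * (1 - 5 * (1 / L)) ≤ S * ((1 - 1 / L) * (1 - 4 * (1 / L))) :=
            mul_le_mul_of_nonneg_left (by
              have h5 : (1 - 1 / L) * (1 - 4 * (1 / L)) = 1 - 5 * (1 / L) + 4 * ((1 / L) * (1 / L)) := by ring
              have h6 : 0 ≤ (1 / L) * (1 / L) := by positivity
              rw [h5]
              linarith) hS0.le
        _ = T * (1 - 1 / L) * (L ^ (k ^ 2) * (1 - 4 * (1 / L))) := by rw [hS]; ring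
        _ ≤ X * (L ^ (k ^ 2) * (1 - 1 / 2 ^ n - 3 / L)) :=
            mul_le_mul h3 (mul_le_mul_of_nonneg_left c5 (by linarith))
              (mul_nonneg (by linarith) (by linarith)) (by linarith)
    linarith
  -- conclusion
  have hkΛ : 1 / L ≤ 2 * (k * Λ) := by
    have : k * (1 / 2) ≤ k * Λ := mul_le_mul_of_nonneg_left hkl hk0.le
    linarith
  have hkΛ0 : 0 ≤ k * Λ := by positivity
  have hfin : |(∫ t in x..(x + T), ‖riemannZeta (cl t)‖ ^ (2 * k)) - S| ≤ S * ((8 * C1 + 30 + 8 * C) * (k * Λ)) := by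
    have d1 : (4 * C1 + 10) * (1 / L) ≤ (4 * C1 + 10) * (2 * (k * Λ)) := mul_le_mul_of_nonneg_left hkΛ (by positivity)
    have d2 : 0 ≤ C1 * (k * Λ) := by positivity
    have d3 : 0 ≤ C * (k * Λ) := by positivity
    rw [abs_le]
    constructor
    · have d4 : S * (1 - (8 * C1 + 30 + 8 * C) * (k * Λ)) ≤ S * (1 - 5 * (1 / L) - 2 * (C * k * Λ)) := by
        refine mul_le_mul_of_nonneg_left ?_ hS0.le
        have d5 : (8 * C1 + 30 + 8 * C) * (k * Λ) = 8 * (C1 * (k * Λ)) + 30 * (k * Λ) + 8 * (C * (k * Λ)) := by ring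
        have d6 : C * k * Λ = C * (k * Λ) := by ring
        rw [d5, d6]
        linarith
      have d7 : S * (1 - (8 * C1 + 30 + 8 * C) * (k * Λ)) = S - S * ((8 * C1 + 30 + 8 * C) * (k * Λ)) := by ring
      linarith
    · have d4 : S * (1 + (4 * C1 + 10) * (1 / L) + 4 * (C * k * Λ)) ≤ S * (1 + (8 * C1 + 30 + 8 * C) * (k * Λ)) := by
        refine mul_le_mul_of_nonneg_left ?_ hS0.le
        have d5 : (8 * C1 + 30 + 8 * C) * (k * Λ) = 8 * (C1 * (k * Λ)) + 30 * (k * Λ) + 8 * (C * (k * Λ)) := by ring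
        have d6 : C * k * Λ = C * (k * Λ) := by ring
        have d8 : (4 * C1 + 10) * (2 * (k * Λ)) = 8 * (C1 * (k * Λ)) + 20 * (k * Λ) := by ring
        rw [d8] at d1
        rw [d5, d6]
        linarith
      have d7 : S * (1 + (8 * C1 + 30 + 8 * C) * (k * Λ)) = S + S * ((8 * C1 + 30 + 8 * C) * (k * Λ)) := by ring
      linarith
  have hre : T⁻¹ * (∫ t in x..(x + T), ‖riemannZeta (cl t)‖ ^ (2 * k)) - L ^ (k ^ 2) =
      T⁻¹ * ((∫ t in x..(x + T), ‖riemannZeta (cl t)‖ ^ (2 * k)) - S) := by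
    rw [hS]; field_simp
  rw [hre, abs_mul, abs_of_pos (inv_pos.mpr hT0)]
  calc T⁻¹ * |(∫ t in x..(x + T), ‖riemannZeta (cl t)‖ ^ (2 * k)) - S| ≤
        T⁻¹ * (S * ((8 * C1 + 30 + 8 * C) * (k * Λ))) :=
        mul_le_mul_of_nonneg_left hfin (inv_pos.mpr hT0).le
    _ = (8 * C1 + 30 + 8 * C) * k * Λ * L ^ (k ^ 2) := by rw [hS]; field_simp
    _ ≤ (8 * C1 + 30 + 8 * C) * (2 * k) * Λ * L ^ (k ^ 2) := by
        refine mul_le_mul_of_nonneg_right (mul_le_mul_of_nonneg_right ?_ (by linarith)) (by linarith)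
        refine mul_le_mul_of_nonneg_left (by linarith) (by positivity)

end Pool.Agent.Q251.KZ
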