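import Pool.Agent.Q276.KZ.Stm
import Pool.Agent.Q251.CD.FN

set_option autoImplicit false

/-! Project KZ, lemma job FNG. -/

namespace Pool.Agent.Q251.KZ

open Pool.Agent.Q276.CD Pool.Agent.Q276.KZ Pool.Agent.Q251.CD Finset MeasureTheory Filter

lemma zR_zt : zR = zt := rfl

/-- the coefficients of the product -/
noncomputable def hG (f : ArithmeticFunction ℝ) (T : ℝ) : ArithmeticFunction ℝ := tr zR (NN T) * f

lemma hG_eq {f : ArithmeticFunction ℝ} {T : ℝ} (h : y2 T ≤ NN T) {n : ℕ} (hn : n ≤ y2 T) :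
    hG f T n = (f * zt) n := by
  unfold hG
  have h1 : ∀ m, m ≤ y2 T → tr zR (NN T) m = zR m := fun m hm => by
    rw [tr_apply, if_pos (hm.trans h)]
  rw [mul_congr_le h1 (fun m _ => rfl) n hn, mul_comm]
  rfl

lemma FG_eq {f : ArithmeticFunction ℝ} {T : ℝ} (hf : ∀ n : ℕ, y2 T < n → f n = 0) (s : ℂ) :
    ZZ T s * Dr f (y2 T) s = Dr (hG f T) (NN T * y2 T) s := by
  have h2 := Dr_mul (tr zR (NN T)) f (NN T) (y2 T) (tr_zero _ _) hf s
  unfold hG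
  rw [h2.2, Dr_tr, ← ZZ_eq]

lemma FGD_eq {f : ArithmeticFunction ℝ} {T : ℝ} (hf : ∀ n : ℕ, y2 T < n → f n = 0) (h : y2 T ≤ NN T)
    (hN : 1 ≤ NN T) (s : ℂ) : ZZ T s * Dr f (y2 T) s - Dr (f * zt) (y2 T) s =
    Dp (fun n => if n ≤ y2 T then 0 else ((hG f T n : ℝ) : ℂ)) (NN T * y2 T) s := by
  have hle : y2 T ≤ NN T * y2 T := by nlinarith
  rw [FG_eq hf]
  unfold Dr Dp
  have h1 : ∑ n ∈ Icc 1 (y2 T), (((f * zt) n : ℝ) : ℂ) * (n : ℂ) ^ (-s) =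
      ∑ n ∈ Icc 1 (NN T * y2 T), (if n ≤ y2 T then ((hG f T n : ℝ) : ℂ) else 0) * (n : ℂ) ^ (-s) := by
    rw [← sum_subset (Icc_subset_Icc_right hle) (fun n hn hn' => ?_)]
    · refine sum_congr rfl fun n hn => ?_
      rw [mem_Icc] at hn
      rw [if_pos hn.2, hG_eq h hn.2]
    · rw [mem_Icc] at hn hn'
      rw [if_neg (by omega), zero_mul]
  rw [h1, ← sum_sub_distrib]
  refine sum_congr rfl fun n _ => ?_
  beta_reduce
  split_ifs
  · ring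
  · ring

lemma Dr_le (g : ArithmeticFunction ℝ) (Y : ℕ) (t : ℝ) : ‖Dr g Y (cl t)‖ ≤ ∑ n ∈ Icc 1 Y, |g n| := by
  unfold Dr Dp
  refine (norm_sum_le _ _).trans (sum_le_sum fun n hn => ?_)
  rw [norm_mul, Complex.norm_real, Real.norm_eq_abs]
  calc |g n| * ‖(n : ℂ) ^ (-cl t)‖ ≤ |g n| * 1 :=
        mul_le_mul_of_nonneg_left (cl_term_norm (mem_Icc.mp hn).1 t) (abs_nonneg _)
    _ = |g n| := mul_one _

lemma conv_le (f : ArithmeticFunction ℝ) (Y : ℕ) : ∑ n ∈ Icc 1 Y, |(f * zt) n| ≤ Y * ∑ n ∈ Icc 1 Y, |f n| := by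
  have h1 : ∀ n ∈ Icc 1 Y, |(f * zt) n| ≤ ∑ d ∈ Icc 1 Y, |f d| := by
    intro n hn
    rw [mem_Icc] at hn
    have h2 : (f * zt) n = ∑ d ∈ n.divisors, f d := by
      unfold zt
      exact ArithmeticFunction.coe_mul_zeta_apply
    rw [h2]
    refine (abs_sum_le_sum_abs _ _).trans ?_
    refine sum_le_sum_of_subset_of_nonneg (fun d hd => ?_) fun _ _ _ => abs_nonneg _
    rw [Nat.mem_divisors] at hd
    rw [mem_Icc]
    exact ⟨Nat.pos_of_dvd_of_pos hd.1 (by omega), (Nat.le_of_dvd (by omega) hd.1).trans hn.2⟩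
  refine (sum_le_sum h1).trans ?_
  rw [sum_const, nsmul_eq_mul, Nat.card_Icc]
  simp

theorem t_FNG : P_FNG := by
  unfold P_FNG
  filter_upwards [eventually_ge_atTop (16:ℝ), ev_log (c := 1 / 2000) (e := 1 / 20) (by norm_num) (by norm_num),
    Real.tendsto_log_atTop.eventually_ge_atTop 4,
    (tendsto_rpow_atTop (by norm_num : (0:ℝ) < 1 / 5)).eventually_ge_atTop 5] with T hT hlog hL4 hT5
  intro f hsupp hfs
  have hT0 : 0 < T := by linarith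
  have hT1 : 1 ≤ T := by linarith
  have hX8 : 8 * T ≤ (NN T : ℝ) := Nat.le_ceil _
  have hX9 : (NN T : ℝ) ≤ 9 * T := by
    have := Nat.ceil_lt_add_one (show 0 ≤ 8 * T by linarith)
    unfold NN
    linarith
  have hNN1 : 1 ≤ NN T := by
    have : (1:ℝ) ≤ (NN T : ℝ) := by linarith
    exact_mod_cast this
  have hy : (y2 T : ℝ) ≤ T ^ ((1:ℝ) / 20) := Nat.floor_le (Real.rpow_nonneg hT0.le _)
  have hyT : T ^ ((1:ℝ) / 20) ≤ T := by
    calc T ^ ((1:ℝ) / 20) ≤ T ^ (1:ℝ) := Real.rpow_le_rpow_of_exponent_le hT1 (by norm_num)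
      _ = T := Real.rpow_one T
  have hyN : y2 T ≤ NN T := by
    have : (y2 T : ℝ) ≤ (NN T : ℝ) := by linarith
    exact_mod_cast this
  have hf : ∀ n : ℕ, y2 T < n → f n = 0 := by
    intro n hn
    by_contra h
    have := hsupp n h
    omega
  refine ⟨fun n => ((hG f T n : ℝ) : ℂ), fun s => FG_eq hf s, fun s => FGD_eq hf hyN hNN1 s, ?_⟩
  intro t ht R hR
  have hR0 : 0 < R := by linarith
  have contZ : Continuous fun u : ℝ => ZZ T (cl u) := Dp_cont _ _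
  have contf : Continuous fun u : ℝ => Dr f (y2 T) (cl u) := Dp_cont _ _
  have contF : Continuous fun u : ℝ => ZZ T (cl u) * Dr f (y2 T) (cl u) := contZ.mul contf
  have contD : Continuous fun u : ℝ => Dr (f * zt) (y2 T) (cl u) := Dp_cont _ _
  have hz := ZZ_int T (t - R) (t + R) (by linarith) hNN1
  have hlN : Real.log (NN T) ≤ Real.log T + 3 := by
    have h1 : Real.log (NN T) ≤ Real.log (9 * T) := Real.log_le_log (by linarith) hX9
    rw [Real.log_mul (by norm_num) hT0.ne'] at h1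
    have h2 : Real.log 9 ≤ 3 := by
      rw [Real.log_le_iff_le_exp (by norm_num)]
      have h3 : (2.7 : ℝ) < Real.exp 1 := by
        have := Real.exp_one_gt_d9; linarith
      have h4 : Real.exp 3 = Real.exp 1 ^ 3 := by rw [← Real.exp_nat_mul]; norm_num
      rw [h4]
      have := pow_le_pow_left₀ (by norm_num : (0:ℝ) ≤ 2.7) h3.le 3
      norm_num at this ⊢
      linarith
    linarith
  have hlN0 : 0 ≤ Real.log (NN T) := Real.log_nonneg (by exact_mod_cast hNN1)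
  have hz2 : ∫ u in (t - R)..(t + R), ‖ZZ T (cl u)‖ ^ 2 ≤ R * T ^ ((1:ℝ) / 20) / 4 := by
    refine hz.trans ?_
    have h1 : t + R - (t - R) + 6 * NN T ≤ 218 * R := by linarith
    have h2 : 1 + Real.log (NN T) ≤ 2 * Real.log T := by linarith
    calc (t + R - (t - R) + 6 * NN T) * (1 + Real.log (NN T)) ≤ (218 * R) * (2 * Real.log T) :=
          mul_le_mul h1 h2 (by linarith) (by positivity)
      _ ≤ (218 * R) * (2 * (1 / 2000 * T ^ ((1:ℝ) / 20))) := by gcongr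
      _ ≤ _ := by
        have := Real.rpow_nonneg hT0.le ((1:ℝ) / 20)
        have := mul_nonneg hR0.le this
        nlinarith
  have hfn : ∀ u : ℝ, ‖Dr f (y2 T) (cl u)‖ ^ 2 ≤ T ^ ((1:ℝ) / 10) := by
    intro u
    calc ‖Dr f (y2 T) (cl u)‖ ^ 2 ≤ (T ^ ((1:ℝ) / 20)) ^ 2 :=
          pow_le_pow_left₀ (norm_nonneg _) ((Dr_le _ _ _).trans hfs) 2
      _ = T ^ ((1:ℝ) / 10) := by rw [← Real.rpow_natCast, ← Real.rpow_mul hT0.le]; norm_num
  have hgn : ∀ u : ℝ, ‖Dr (f * zt) (y2 T) (cl u)‖ ^ 2 ≤ T ^ ((1:ℝ) / 5) := by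
    intro u
    have h1 : ‖Dr (f * zt) (y2 T) (cl u)‖ ≤ T ^ ((1:ℝ) / 20) * T ^ ((1:ℝ) / 20) :=
      (Dr_le _ _ _).trans ((conv_le f _).trans
        (mul_le_mul hy hfs (sum_nonneg fun _ _ => abs_nonneg _) (Real.rpow_nonneg hT0.le _)))
    calc ‖Dr (f * zt) (y2 T) (cl u)‖ ^ 2 ≤ (T ^ ((1:ℝ) / 20) * T ^ ((1:ℝ) / 20)) ^ 2 :=
          pow_le_pow_left₀ (norm_nonneg _) h1 2
      _ = T ^ ((1:ℝ) / 5) := by
        rw [← Real.rpow_add hT0, ← Real.rpow_natCast, ← Real.rpow_mul hT0.le]; norm_num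
  have hD : ∀ u : ℝ, ‖ZZ T (cl u) * Dr f (y2 T) (cl u) - Dr (f * zt) (y2 T) (cl u)‖ ^ 2 ≤
      2 * T ^ ((1:ℝ) / 10) * ‖ZZ T (cl u)‖ ^ 2 + 2 * T ^ ((1:ℝ) / 5) := by
    intro u
    have h1 := norm_sub_le (ZZ T (cl u) * Dr f (y2 T) (cl u)) (Dr (f * zt) (y2 T) (cl u))
    have h3 := pow_le_pow_left₀ (norm_nonneg _) h1 2
    have h4 : ‖ZZ T (cl u) * Dr f (y2 T) (cl u)‖ ^ 2 ≤ ‖ZZ T (cl u)‖ ^ 2 * T ^ ((1:ℝ) / 10) := by
      rw [norm_mul, mul_pow]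
      exact mul_le_mul_of_nonneg_left (hfn u) (by positivity)
    have h5 := hgn u
    nlinarith [sq_nonneg (‖ZZ T (cl u) * Dr f (y2 T) (cl u)‖ - ‖Dr (f * zt) (y2 T) (cl u)‖)]
  have iD : IntervalIntegrable (fun u : ℝ => ‖ZZ T (cl u) * Dr f (y2 T) (cl u) - Dr (f * zt) (y2 T) (cl u)‖ ^ 2)
      volume (t - R) (t + R) := ((contF.sub contD).norm.pow 2).intervalIntegrable _ _
  have i1 : IntervalIntegrable (fun u : ℝ => 2 * T ^ ((1:ℝ) / 10) * ‖ZZ T (cl u)‖ ^ 2) volume (t - R) (t + R) :=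
    (continuous_const.mul (contZ.norm.pow 2)).intervalIntegrable _ _
  have i2 : IntervalIntegrable (fun _ : ℝ => 2 * T ^ ((1:ℝ) / 5)) volume (t - R) (t + R) :=
    continuous_const.intervalIntegrable _ _
  have hI := intervalIntegral.integral_mono_on (by linarith : t - R ≤ t + R) iD (i1.add i2) fun u _ => hD u
  rw [intervalIntegral.integral_add i1 i2, intervalIntegral.integral_const_mul,
    intervalIntegral.integral_const, smul_eq_mul] at hI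
  refine hI.trans ?_
  have q0 : 0 ≤ T ^ ((1:ℝ) / 10) := Real.rpow_nonneg hT0.le _
  have r1 : 2 * T ^ ((1:ℝ) / 10) * (∫ u in (t - R)..(t + R), ‖ZZ T (cl u)‖ ^ 2) ≤ R * T ^ ((1:ℝ) / 5) := by
    calc 2 * T ^ ((1:ℝ) / 10) * (∫ u in (t - R)..(t + R), ‖ZZ T (cl u)‖ ^ 2) ≤
          2 * T ^ ((1:ℝ) / 10) * (R * T ^ ((1:ℝ) / 20) / 4) := mul_le_mul_of_nonneg_left hz2 (by positivity)
      _ = R * (T ^ ((1:ℝ) / 10) * T ^ ((1:ℝ) / 20)) / 2 := by ring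
      _ = R * T ^ ((3:ℝ) / 20) / 2 := by rw [← Real.rpow_add hT0]; norm_num
      _ ≤ R * T ^ ((1:ℝ) / 5) / 2 := by
        have : T ^ ((3:ℝ) / 20) ≤ T ^ ((1:ℝ) / 5) := Real.rpow_le_rpow_of_exponent_le hT1 (by norm_num)
        gcongr
      _ ≤ R * T ^ ((1:ℝ) / 5) := by
        have : 0 ≤ R * T ^ ((1:ℝ) / 5) := mul_nonneg hR0.le (Real.rpow_nonneg hT0.le _)
        linarith
  have r2 : 5 * (R * T ^ ((1:ℝ) / 5)) ≤ T ^ ((1:ℝ) / 2) * R := by
    have h1 : 5 * T ^ ((1:ℝ) / 5) ≤ T ^ ((1:ℝ) / 2) := by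
      calc 5 * T ^ ((1:ℝ) / 5) ≤ T ^ ((1:ℝ) / 5) * T ^ ((1:ℝ) / 5) :=
            mul_le_mul_of_nonneg_right hT5 (Real.rpow_nonneg hT0.le _)
        _ = T ^ ((2:ℝ) / 5) := by rw [← Real.rpow_add hT0]; norm_num
        _ ≤ T ^ ((1:ℝ) / 2) := Real.rpow_le_rpow_of_exponent_le hT1 (by norm_num)
    nlinarith
  have r3 : (t + R - (t - R)) * (2 * T ^ ((1:ℝ) / 5)) = 4 * (R * T ^ ((1:ℝ) / 5)) := by ring
  rw [r3]
  linarith

end Pool.Agent.Q251.KZ
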