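import Pool.Agent.Q251.KZ.UY

set_option autoImplicit false

/-! Project KZ, lemma job LD: the exceptional sets for the lower bound. -/

namespace Pool.Agent.Q251.KZ

open Pool.Agent.Q276.CD Pool.Agent.Q276.KZ Pool.Agent.Q251.CD Finset MeasureTheory Filter

open Classical in
/-- weights -/
noncomputable def wS (S : Finset ℕ) (K : ℕ → ℕ) (j _o : ℕ) : ℝ := if j ∈ S then (1 / 4) ^ K j else 1

open Classical in
/-- local values -/
noncomputable def fS (S : Finset ℕ) (k : ℝ) (j _o p a : ℕ) : ℝ := if j ∈ S then ek 40 p a ^ 2 else ek k p a ^ 2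

/-- the majorant of the squares of the coefficients -/
noncomputable def GS1 (S : Finset ℕ) (k : ℝ) (J : ℕ) (K b : ℕ → ℕ) (n : ℕ) : ℝ :=
  low b d0' n * ∏ j ∈ range (J + 1), ∑ o ∈ ({0} : Finset ℕ), wS S K j o * blk b j (fS S k j o) n

lemma fS_nonneg (S : Finset ℕ) (k : ℝ) (j o p a : ℕ) : 0 ≤ fS S k j o p a := by unfold fS; split_ifs <;> positivity

lemma wS_nonneg (S : Finset ℕ) (K : ℕ → ℕ) (j o : ℕ) : 0 ≤ wS S K j o := by unfold wS; split_ifs <;> positivity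

lemma GS1_nonneg (S : Finset ℕ) (k : ℝ) (J : ℕ) (K b : ℕ → ℕ) (n : ℕ) : 0 ≤ GS1 S k J K b n :=
  mul_nonneg (low_nonneg d0'_nonneg n) (prod_nonneg fun j _ => sum_nonneg fun o _ =>
    mul_nonneg (wS_nonneg S K j o) (blk_nonneg (fS_nonneg S k j o) n))

lemma GS1_sum (h2 : P_GL) {C : ℝ} (hC1 : 1 ≤ C)
    (l1 : ∀ p : ℕ, p.Prime → (Summable fun a : ℕ => ek 40 p a ^ 2 / (p : ℝ) ^ a) ∧
      ∑' a : ℕ, ek 40 p a ^ 2 / (p : ℝ) ^ a ≤ Real.exp (C / p))
    (l2 : ∀ p : ℕ, p.Prime → ∀ k : ℝ, 0 ≤ k → k ≤ 1 → (Summable fun a : ℕ => ek k p a ^ 2 / (p : ℝ) ^ a) ∧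
      ∑' a : ℕ, ek k p a ^ 2 / (p : ℝ) ^ a ≤ Real.exp (k ^ 2 / p))
    {e C3 T k : ℝ} {J : ℕ} {K b : ℕ → ℕ} (h : Su e C3 T k J K b) (hCe : C * e ≤ 1 / 2) (S : Finset ℕ) :
    Sb (b (J + 1)) (GS1 S k J K b) ∧ SS (b (J + 1)) (GS1 S k J K b) ≤
      (∏ j ∈ range (J + 1), if j ∈ S then Real.exp (-((K j : ℝ) / 100)) else 1) * WW k J b := by
  classical
  have hpp : ∀ j, ∀ p ∈ bp b j, p.Prime := fun j p hp => by
    unfold bp at hp
    exact Nat.prime_of_mem_primesBelow (mem_filter.mp hp).1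
  have hg := h2 b J {0} d0' (wS S K) (fS S k) h.mono (fun p => by simp [d0'])
    (fun j o p => by unfold fS; split_ifs <;> simp [ek])
    (fun p _ _ => (sum_ite0 p).1)
    (fun j _ o _ p hp => by
      unfold fS
      split_ifs
      · simpa only [abs_sq] using (l1 p (hpp j p hp)).1
      · simpa only [abs_sq] using (l2 p (hpp j p hp) k h.k0.le h.k1).1)
  have hS : Sb (b (J + 1)) (GS1 S k J K b) := by
    refine Sb_of_le hg.1 fun n _ => ?_
    exact le_of_eq rfl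
  refine ⟨hS, ?_⟩
  have e1 : SS (b (J + 1)) (GS1 S k J K b) = (∏ p ∈ Nat.primesBelow (b 0), ∑' a : ℕ, d0' p a / (p : ℝ) ^ a) *
    ∏ j ∈ range (J + 1), ∑ o ∈ ({0} : Finset ℕ), wS S K j o * ∏ p ∈ bp b j, ∑' a : ℕ, fS S k j o p a / (p : ℝ) ^ a := hg.2
  have e2 : ∏ p ∈ Nat.primesBelow (b 0), ∑' a : ℕ, d0' p a / (p : ℝ) ^ a = 1 :=
    prod_eq_one fun p _ => (sum_ite0 p).2
  rw [e1, e2, one_mul]
  have e3 : ∀ j ∈ range (J + 1), ∑ o ∈ ({0} : Finset ℕ), wS S K j o * ∏ p ∈ bp b j, ∑' a : ℕ, fS S k j o p a / (p : ℝ) ^ a ≤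
      (if j ∈ S then Real.exp (-((K j : ℝ) / 100)) else 1) * Real.exp (k ^ 2 * (R1 (b (j + 1)) - R1 (b j))) := by
    intro j hj
    rw [mem_range] at hj
    have hjJ : j ≤ J := by omega
    rw [sum_singleton]
    have hD := blk_sum (h.mono j hjJ)
    have hD0 : 0 ≤ R1 (b (j + 1)) - R1 (b j) := sub_nonneg.mpr (R1_mono (h.mono j hjJ))
    have f6 : 1 ≤ Real.exp (k ^ 2 * (R1 (b (j + 1)) - R1 (b j))) := Real.one_le_exp (by positivity)
    by_cases hjS : j ∈ S
    · simp only [wS, fS, if_pos hjS]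
      have f2 : ∏ p ∈ bp b j, ∑' a : ℕ, ek 40 p a ^ 2 / (p : ℝ) ^ a ≤ Real.exp (C * (R1 (b (j + 1)) - R1 (b j))) := by
        rw [← hD, mul_sum, Real.exp_sum]
        refine prod_le_prod (fun p _ => tsum_nonneg fun a => by positivity) fun p hp => ?_
        have := (l1 p (hpp j p hp)).2
        rwa [mul_one_div]
      have f3 : C * (R1 (b (j + 1)) - R1 (b j)) ≤ (K j : ℝ) / 2 := by
        have := h.var j hjJ
        have hK : (0:ℝ) ≤ K j := Nat.cast_nonneg _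
        nlinarith
      have f4 : ((1:ℝ) / 4) ^ K j * Real.exp (C * (R1 (b (j + 1)) - R1 (b j))) ≤ Real.exp (-((K j : ℝ) / 100)) := by
        have g1 : ((1:ℝ) / 4) ^ K j ≤ Real.exp (-(K j : ℝ)) := by
          have g2 : (1:ℝ) / 4 ≤ Real.exp (-1) := by
            rw [Real.exp_neg, one_div]
            refine inv_anti₀ (Real.exp_pos 1) ?_
            have := Real.exp_one_lt_d9
            linarith
          calc ((1:ℝ) / 4) ^ K j ≤ (Real.exp (-1)) ^ K j := pow_le_pow_left₀ (by norm_num) g2 _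
            _ = Real.exp (-(K j : ℝ)) := by rw [← Real.exp_nat_mul]; ring_nf
        calc ((1:ℝ) / 4) ^ K j * Real.exp (C * (R1 (b (j + 1)) - R1 (b j)))
            ≤ Real.exp (-(K j : ℝ)) * Real.exp ((K j : ℝ) / 2) :=
              mul_le_mul g1 (Real.exp_le_exp.mpr f3) (Real.exp_pos _).le (Real.exp_pos _).le
          _ = Real.exp (-(K j : ℝ) + (K j : ℝ) / 2) := by rw [Real.exp_add]
          _ ≤ Real.exp (-((K j : ℝ) / 100)) := by
              refine Real.exp_le_exp.mpr ?_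
              have hK : (0:ℝ) ≤ K j := Nat.cast_nonneg _
              linarith
      have f5 : ((1:ℝ) / 4) ^ K j * ∏ p ∈ bp b j, ∑' a : ℕ, ek 40 p a ^ 2 / (p : ℝ) ^ a ≤ Real.exp (-((K j : ℝ) / 100)) :=
        (mul_le_mul_of_nonneg_left f2 (by positivity)).trans f4
      exact f5.trans (le_mul_of_one_le_right (Real.exp_pos _).le f6)
    · simp only [wS, fS, if_neg hjS, one_mul]
      rw [← hD, mul_sum, Real.exp_sum]
      refine prod_le_prod (fun p _ => tsum_nonneg fun a => by positivity) fun p hp => ?_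
      have := (l2 p (hpp j p hp) k h.k0.le h.k1).2
      rwa [mul_one_div]
  have e4 : ∏ j ∈ range (J + 1), ∑ o ∈ ({0} : Finset ℕ), wS S K j o * ∏ p ∈ bp b j, ∑' a : ℕ, fS S k j o p a / (p : ℝ) ^ a ≤
      (∏ j ∈ range (J + 1), if j ∈ S then Real.exp (-((K j : ℝ) / 100)) else 1) *
      Real.exp (∑ j ∈ range (J + 1), (k ^ 2 * (R1 (b (j + 1)) - R1 (b j)))) := by
    rw [Real.exp_sum, ← prod_mul_distrib]
    refine prod_le_prod (fun j _ => sum_nonneg fun o _ => mul_nonneg (wS_nonneg S K j o) (prod_nonneg fun p _ =>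
      tsum_nonneg fun a => div_nonneg (fS_nonneg S k j o p a) (by positivity))) e3
  refine e4.trans ?_
  rw [← mul_sum, tele]
  refine mul_le_mul_of_nonneg_left ?_ (prod_nonneg fun j _ => by split_ifs; exacts [(Real.exp_pos _).le, zero_le_one])
  unfold WW
  refine Real.exp_le_exp.mpr (mul_le_mul_of_nonneg_left ?_ (sq_nonneg k))
  linarith [R1_nonneg (b 0)]

lemma GS1_QL (h1 : P_FS) {b : ℕ → ℕ} {J : ℕ} {K : ℕ → ℕ} {k : ℝ} (hb : ∀ j ≤ J, b j ≤ b (j + 1)) (hk : 0 ≤ k)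
    (hk1 : k ≤ 1) {i : ℕ} (hi : i ≤ J) (n : ℕ) : fQ b J (QL k K i) n ^ 2 ≤ GS1 {i} k J K b n := by
  classical
  refine ((h1 b J K k hb hk hk1 n).2 i hi).trans (le_of_eq ?_)
  unfold GS1
  congr 1
  refine prod_congr rfl fun j _ => ?_
  rw [sum_singleton]
  by_cases hj : j = i
  · have g1 : wS {i} K j 0 = (1 / 4) ^ K j := by simp [wS, hj]
    have g2 : fS {i} k j 0 = fun p a => ek 40 p a ^ 2 := by funext p a; simp [fS, hj]
    rw [if_pos hj, g1, g2]
  · have g1 : wS {i} K j 0 = 1 := by simp [wS, hj]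
    have g2 : fS {i} k j 0 = fun p a => ek k p a ^ 2 := by funext p a; simp [fS, hj]
    rw [if_neg hj, g1, g2, one_mul]

lemma QX_empty (k : ℝ) (K : ℕ → ℕ) : QX k K ∅ = QE k K := by
  funext j m
  simp [QX]

lemma GS1_QE (h1 : P_FS) {b : ℕ → ℕ} {J : ℕ} {K : ℕ → ℕ} {k : ℝ} (hb : ∀ j ≤ J, b j ≤ b (j + 1)) (hk : 0 ≤ k)
    (hk1 : k ≤ 1) (n : ℕ) : fQ b J (QE k K) n ^ 2 ≤ GS1 ∅ k J K b n := by
  classical
  have h := (h1 b J K k hb hk hk1 n).1 ∅
  rw [QX_empty] at h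
  refine h.trans (le_of_eq ?_)
  unfold GS1
  congr 1
  refine prod_congr rfl fun j _ => ?_
  rw [sum_singleton]
  have g1 : wS ∅ K j 0 = 1 := by simp [wS]
  have g2 : fS ∅ k j 0 = fun p a => ek k p a ^ 2 := by funext p a; simp [fS]
  rw [g1, g2, one_mul, if_neg (by simp)]

lemma QL_zero {k : ℝ} {K : ℕ → ℕ} {i j m : ℕ} (h : 2 * K j < m) : QL k K i j m = 0 := by
  unfold QL QE
  split_ifs with h1 h2 h3
  · subst h1; omega
  · rfl
  · omega
  · rfl

/-- the square of the convolution -/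
lemma conv_sq {g f : ArithmeticFunction ℝ} {u : ℕ} (hg : ∀ n, g n ≠ 0 → n ∈ Nat.smoothNumbers u)
    (hf : ∀ n, f n ≠ 0 → ∀ p : ℕ, p.Prime → p ∣ n → u ≤ p) (n : ℕ) :
    (g * f) n ^ 2 ≤ ∑ x ∈ n.divisorsAntidiagonal, g x.1 ^ 2 * f x.2 ^ 2 := by
  rw [ArithmeticFunction.mul_apply]
  by_cases h : ∃ x ∈ n.divisorsAntidiagonal, g x.1 * f x.2 ≠ 0
  · obtain ⟨x, hx, hx0⟩ := h
    have hun : ∀ x y : ℕ × ℕ, x ∈ n.divisorsAntidiagonal → g x.1 * f x.2 ≠ 0 → y ∈ n.divisorsAntidiagonal →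
        g y.1 * f y.2 ≠ 0 → x.1 ∣ y.1 := by
      intro x y hx hx0 hy hy0
      rw [Nat.mem_divisorsAntidiagonal] at hx hy
      have c1 : Nat.Coprime x.1 y.2 := by
        refine Nat.coprime_of_dvd fun p hp h1 h2 => ?_
        have a1 := (sm_iff.mp (hg _ (left_ne_zero_of_mul hx0))).2 p hp h1
        have a2 := hf _ (right_ne_zero_of_mul hy0) p hp h2
        omega
      refine c1.dvd_of_dvd_mul_right ?_
      rw [hy.1, ← hx.1]
      exact dvd_mul_right _ _
    have hsingle : ∑ y ∈ n.divisorsAntidiagonal, g y.1 * f y.2 = g x.1 * f x.2 := by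
      refine sum_eq_single x (fun y hy hyx => ?_) fun h => absurd hx h
      by_contra hy0
      apply hyx
      have d1 := hun x y hx hx0 hy hy0
      have d2 := hun y x hy hy0 hx hx0
      have d3 : x.1 = y.1 := Nat.dvd_antisymm d1 d2
      rw [Nat.mem_divisorsAntidiagonal] at hx hy
      have d4 : x.1 ≠ 0 := by
        intro h0
        rw [h0, zero_mul] at hx
        exact hx.2 hx.1.symm
      refine Prod.ext d3.symm ?_
      have : x.1 * y.2 = x.1 * x.2 := by rw [hx.1, ← hy.1, d3]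
      exact Nat.eq_of_mul_eq_mul_left (Nat.pos_of_ne_zero d4) this
    rw [hsingle, mul_pow]
    exact single_le_sum (f := fun x : ℕ × ℕ => g x.1 ^ 2 * f x.2 ^ 2) (fun y _ => by positivity) hx
  · push Not at h
    rw [sum_eq_zero fun x hx => h x hx]
    simp only [ne_eq, OfNat.ofNat_ne_zero, not_false_eq_true, zero_pow]
    exact sum_nonneg fun _ _ => by positivity

lemma conv_sum {g f : ArithmeticFunction ℝ} {u : ℕ} (hg : ∀ n, g n ≠ 0 → n ∈ Nat.smoothNumbers u)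
    (hf : ∀ n, f n ≠ 0 → ∀ p : ℕ, p.Prime → p ∣ n → u ≤ p) (Y : ℕ) :
    ∑ n ∈ Icc 1 Y, (g * f) n ^ 2 / (n : ℝ) ≤ (∑ d ∈ Icc 1 Y, g d ^ 2 / (d : ℝ)) * ∑ m ∈ Icc 1 Y, f m ^ 2 / (m : ℝ) := by
  classical
  rw [sum_mul_sum, ← sum_product']
  have h1 : ∀ n ∈ Icc 1 Y, (g * f) n ^ 2 / (n : ℝ) ≤ ∑ x ∈ Icc 1 Y ×ˢ Icc 1 Y,
      if x.1 * x.2 = n then g x.1 ^ 2 / (x.1 : ℝ) * (f x.2 ^ 2 / (x.2 : ℝ)) else 0 := by
    intro n hn
    rw [mem_Icc] at hn
    rw [← sum_filter]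
    have h2 : (g * f) n ^ 2 / (n : ℝ) ≤ ∑ x ∈ n.divisorsAntidiagonal, g x.1 ^ 2 / (x.1 : ℝ) * (f x.2 ^ 2 / (x.2 : ℝ)) := by
      refine (div_le_div_of_nonneg_right (conv_sq hg hf n) (Nat.cast_nonneg n)).trans (le_of_eq ?_)
      rw [sum_div]
      refine sum_congr rfl fun x hx => ?_
      rw [Nat.mem_divisorsAntidiagonal] at hx
      rw [← hx.1]
      push_cast
      rw [div_mul_div_comm]
    refine h2.trans ?_
    refine sum_le_sum_of_subset_of_nonneg (fun x hx => ?_) fun _ _ _ => by positivity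
    rw [Nat.mem_divisorsAntidiagonal] at hx
    rw [mem_filter, mem_product, mem_Icc, mem_Icc]
    have p1 : x.1 ≠ 0 := by rintro h0; rw [h0, zero_mul] at hx; exact hx.2 hx.1.symm
    have p2 : x.2 ≠ 0 := by rintro h0; rw [h0, mul_zero] at hx; exact hx.2 hx.1.symm
    have q1 : x.1 ≤ n := Nat.le_of_dvd (by omega) ⟨x.2, hx.1.symm⟩
    have q2 : x.2 ≤ n := Nat.le_of_dvd (by omega) ⟨x.1, by rw [mul_comm]; exact hx.1.symm⟩
    exact ⟨⟨⟨by omega, by omega⟩, ⟨by omega, by omega⟩⟩, hx.1⟩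
  refine (sum_le_sum h1).trans ?_
  rw [sum_comm]
  refine sum_le_sum fun x _ => ?_
  rw [sum_ite_eq]
  split_ifs
  · exact le_rfl
  · positivity

/-- local values of the indicator function of the squarefree numbers -/
def fsq (_p a : ℕ) : ℝ := if a ≤ 1 then 1 else 0

lemma mu0_sum (B Y : ℕ) : ∑ d ∈ Icc 1 Y, mu0 B d ^ 2 / (d : ℝ) ≤ Real.exp (R1 B) := by
  classical
  have hsum : ∀ p : ℕ, HasSum (fun j : ℕ => fsq p j / (p : ℝ) ^ j) (∑ j ∈ range 2, fsq p j / (p : ℝ) ^ j) := by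
    intro p
    refine hasSum_sum_of_ne_finset_zero fun j hj => ?_
    rw [mem_range] at hj
    simp [fsq, show ¬ j ≤ 1 by omega]
  have hb := ep_bound (φ := fsq) (N := B) (c := fun p => 1 / (p : ℝ)) (fun p => by simp [fsq])
    (fun p j => by unfold fsq; split_ifs <;> norm_num) (fun p _ => (hsum p).summable) (fun p hp _ => by
      rw [(hsum p).tsum_eq]
      rw [sum_range_succ, sum_range_one]
      simp only [fsq, pow_zero, pow_one]
      norm_num
      linarith [Real.add_one_le_exp ((p : ℝ)⁻¹)])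
  have h0 : ∀ n, 0 ≤ mf fsq n := mf_nonneg fun p j => by unfold fsq; split_ifs <;> norm_num
  refine le_trans ?_ hb.2
  refine le_trans ?_ (fin_le_SS (F := (Icc 1 Y).filter (fun n => n ∈ Nat.smoothNumbers B)) hb.1 (fun n _ => h0 n)
    fun n hn => (mem_filter.mp hn).2)
  rw [sum_filter]
  refine sum_le_sum fun n _ => ?_
  have hmu : mu0 B n = if n ∈ Nat.smoothNumbers B then ((ArithmeticFunction.moebius n : ℤ) : ℝ) else 0 := rfl
  rw [hmu]
  by_cases hn : n ∈ Nat.smoothNumbers B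
  · rw [if_pos hn, if_pos hn]
    refine div_le_div_of_nonneg_right ?_ (Nat.cast_nonneg n)
    by_cases hs : Squarefree n
    · have h1 : mf fsq n = 1 := by
        unfold mf
        refine prod_eq_one fun p _ => ?_
        unfold fsq
        rw [if_pos (hs.natFactorization_le_one p)]
      rw [h1]
      have h2 := ArithmeticFunction.abs_moebius_le_one (n := n)
      have h3 : |((ArithmeticFunction.moebius n : ℤ) : ℝ)| ≤ 1 := by exact_mod_cast h2
      rw [← sq_abs]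
      exact pow_le_one₀ (abs_nonneg _) h3
    · rw [ArithmeticFunction.moebius_eq_zero_of_not_squarefree hs]
      simpa using h0 n
  · rw [if_neg hn, if_neg hn]
    simp

/-- shifting to the right -/
lemma Dr_shift (f : ArithmeticFunction ℝ) (Y : ℕ) (Δ t : ℝ) : Dr f Y (cl t + (Δ : ℂ)) =
    Dp (fun n => ((f n : ℝ) : ℂ) * (n : ℂ) ^ (-(Δ : ℂ))) Y (cl t) := by
  unfold Dr Dp
  refine sum_congr rfl fun n hn => ?_
  rw [mem_Icc] at hn
  have h0 : (n : ℂ) ≠ 0 := by exact_mod_cast (by omega : n ≠ 0)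
  rw [neg_add, Complex.cpow_add _ _ h0]
  ring

lemma norm_shift_le (f : ArithmeticFunction ℝ) {Δ : ℝ} (hΔ : 0 ≤ Δ) (n : ℕ) :
    ‖((f n : ℝ) : ℂ) * (n : ℂ) ^ (-(Δ : ℂ))‖ ≤ |f n| := by
  rcases Nat.eq_zero_or_pos n with rfl | hn
  · simp
  · rw [norm_mul, Complex.norm_real, Real.norm_eq_abs, Complex.norm_natCast_cpow_of_pos hn]
    refine mul_le_of_le_one_right (abs_nonneg _) ?_
    refine Real.rpow_le_one_of_one_le_of_nonpos (by exact_mod_cast hn) ?_
    simp [hΔ]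

theorem t_LD (h1 : P_FS) (h2 : P_GL) (h3 : P_LC) (h4 : P_PRM) (h5 : P_FA) (h6 : P_RN) : P_LD := by
  classical
  obtain ⟨C, hC1, hC⟩ := h3
  have l1 : ∀ p : ℕ, p.Prime → (Summable fun a : ℕ => ek 40 p a ^ 2 / (p : ℝ) ^ a) ∧
      ∑' a : ℕ, ek 40 p a ^ 2 / (p : ℝ) ^ a ≤ Real.exp (C / p) := fun p hp =>
    (hC p hp 1 le_rfl (by norm_num) 1 (by norm_num) le_rfl).2.2.2.2.1
  have l2 : ∀ p : ℕ, p.Prime → ∀ k : ℝ, 0 ≤ k → k ≤ 1 → (Summable fun a : ℕ => ek k p a ^ 2 / (p : ℝ) ^ a) ∧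
      ∑' a : ℕ, ek k p a ^ 2 / (p : ℝ) ^ a ≤ Real.exp (k ^ 2 / p) := fun p hp k h0 h1 =>
    (hC p hp 1 le_rfl (by norm_num) k h0 h1).2.2.2.2.2.1
  refine ⟨min (1 / 100) (1 / (2 * C)), by positivity, fun C5 hC5 e he hee C3 hC3 => ?_⟩
  have he100 : e ≤ 1 / 100 := hee.trans (min_le_left _ _)
  have heC : C * e ≤ 1 / 2 := by
    have := hee.trans (min_le_right _ _)
    calc C * e ≤ C * (1 / (2 * C)) := mul_le_mul_of_nonneg_left this (by linarith)
      _ = 1 / 2 := by field_simp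
  obtain ⟨C', hC'0, hC'⟩ := h6 e he he100 C3 hC3
  refine ⟨4 * C' + 10, by positivity, ?_⟩
  filter_upwards [ev_err, eventually_ge_atTop (16:ℝ), hC', Real.tendsto_log_atTop.eventually_ge_atTop 4]
    with T hT1 hT16 hRN hL4 k J K b h
  have hT0 : 0 < T := by linarith
  have hM1 := su_M1 h
  have hMT := su_M1T h
  have hM0 : (0:ℝ) ≤ M1 b K J := by linarith
  have hk1 : |k| ≤ 1 := by rw [abs_of_pos h.k0]; exact h.k1
  have hlk : 0 ≤ Real.log (2 / k) := Real.log_nonneg (by rw [le_div_iff₀ h.k0]; linarith [h.k1])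
  have hΔ : 0 ≤ dl C5 T k (K J) := by
    unfold dl
    exact div_nonneg (mul_nonneg (mul_nonneg (by linarith) (by positivity)) hlk) (by linarith)
  have hW := one_le_WW k J b
  have hQ : ∀ i ≤ J, ∀ n, fQ b J (QL k K i) n ≠ 0 →
      n ≤ M1 b K J ^ 2 ∧ n ∈ Nat.smoothNumbers (b (J + 1)) := fun i hi n hn => by
    have := (h4 b J (QL k K i) (fun j => 2 * K j) _ (by have := h.b0; omega) h.mono
      (fun j _ m hm => QL_zero hm) le_rfl).2.1 n hn
    rwa [M1_sq] at this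
  constructor
  · have hint : ∀ i ∈ range (J + 1), ∫ t in (T / 2)..(4 * T), ‖Dr (fQ b J (QL k K i)) (y2 T)
        (cl t + (dl C5 T k (K J) : ℂ))‖ ^ 2 ≤
        (7 / 2 * T) * (Real.exp (-((K i : ℝ) / 100)) * WW k J b) +
          4 * y2 T * ((M1 b K J : ℝ) ^ 2 * (M1 b K J : ℝ) ^ 2) ^ 2 := by
      intro i hi
      rw [mem_range] at hi
      have hi' : i ≤ J := by omega
      simp_rw [Dr_shift]
      obtain ⟨g1, g2⟩ := GS1_sum h2 hC1 l1 l2 h heC {i}
      have g3 : (∏ j ∈ range (J + 1), if j ∈ ({i} : Finset ℕ) then Real.exp (-((K j : ℝ) / 100)) else 1) =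
          Real.exp (-((K i : ℝ) / 100)) := by
        simp only [mem_singleton]
        rw [prod_ite_eq', if_pos (mem_range.mpr hi)]
      rw [g3] at g2
      refine (mv_f _ (fQ b J (QL k K i)) (y2 T) (T1 := T / 2) (T2 := 4 * T)
        (A := (M1 b K J : ℝ) ^ 2) (B := (M1 b K J : ℝ) ^ 2) (by linarith)
        (fun n => norm_shift_le _ hΔ n)
        (fun n hn => by exact_mod_cast (hQ i hi' n hn).1)
        (fun n => ((h5 b J K k hk1 n).2.1 i hi').trans (su_twenty h)) (by positivity)).trans ?_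
      rw [show 4 * T - T / 2 = 7 / 2 * T by ring]
      refine add_le_add (mul_le_mul_of_nonneg_left ?_ (by positivity)) le_rfl
      refine le_trans ?_ g2
      refine le_trans ?_ (fin_le_SS (F := (Icc 1 (y2 T)).filter (fun n => n ∈ Nat.smoothNumbers (b (J + 1)))) g1
        (fun n _ => GS1_nonneg {i} k J K b n) fun n hn => (mem_filter.mp hn).2)
      calc _ ≤ ∑ n ∈ (Icc 1 (y2 T)).filter (fun n => n ∈ Nat.smoothNumbers (b (J + 1))),
            fQ b J (QL k K i) n ^ 2 / (n : ℝ) := by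
            refine sum_le_sum_of_subset_of_nonneg (fun n hn => ?_) fun _ _ _ => by positivity
            rw [mem_filter] at hn ⊢
            exact ⟨hn.1, (hQ i hi' n hn.2).2⟩
        _ ≤ _ := sum_le_sum fun n _ =>
            div_le_div_of_nonneg_right (GS1_QL h1 h.mono h.k0.le h.k1 hi' n) (Nat.cast_nonneg n)
    refine (sum_le_sum hint).trans ?_
    rw [sum_add_distrib, ← mul_sum, ← sum_mul, sum_const, card_range, nsmul_eq_mul]
    have r1 : 7 / 2 * T * ((∑ i ∈ range (J + 1), Real.exp (-((K i : ℝ) / 100))) * WW k J b) ≤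
        7 / 2 * T * (k ^ 2 * WW k J b) :=
      mul_le_mul_of_nonneg_left (mul_le_mul_of_nonneg_right h.err (by linarith)) (by positivity)
    have herr : ((J + 1 : ℕ) : ℝ) * (4 * y2 T * ((M1 b K J : ℝ) ^ 2 * (M1 b K J : ℝ) ^ 2) ^ 2) ≤ k ^ 2 * T := by
      have q1 : ((J + 1 : ℕ) : ℝ) ≤ M1 b K J := by
        have q0 := su_two h he (by linarith)
        have q3 : J + 1 < 2 ^ (J + 1) := Nat.lt_two_pow_self
        have q4 : ((J + 1 : ℕ) : ℝ) ≤ (2:ℝ) ^ (J + 1) := by exact_mod_cast q3.le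
        exact q4.trans q0
      have q2 : (M1 b K J : ℝ) * ((M1 b K J : ℝ) ^ 2 * (M1 b K J : ℝ) ^ 2) ^ 2 ≤ (T ^ e) ^ (9:ℝ) := by
        have : (M1 b K J : ℝ) ^ 9 ≤ (T ^ e) ^ 9 := pow_le_pow_left₀ hM0 hMT 9
        rw [show (T ^ e) ^ (9:ℝ) = (T ^ e) ^ 9 by
          rw [show (9:ℝ) = ((9:ℕ) : ℝ) by norm_num, Real.rpow_natCast]]
        calc _ = (M1 b K J : ℝ) ^ 9 := by ring
          _ ≤ _ := this
      calc ((J + 1 : ℕ) : ℝ) * (4 * y2 T * ((M1 b K J : ℝ) ^ 2 * (M1 b K J : ℝ) ^ 2) ^ 2)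
          ≤ (M1 b K J : ℝ) * (4 * y2 T * ((M1 b K J : ℝ) ^ 2 * (M1 b K J : ℝ) ^ 2) ^ 2) :=
            mul_le_mul_of_nonneg_right q1 (by positivity)
        _ = 4 * (y2 T * ((M1 b K J : ℝ) * ((M1 b K J : ℝ) ^ 2 * (M1 b K J : ℝ) ^ 2) ^ 2)) := by ring
        _ ≤ 4 * (y2 T * (T ^ e) ^ (9:ℝ)) := by
            refine mul_le_mul_of_nonneg_left (mul_le_mul_of_nonneg_left q2 (Nat.cast_nonneg _)) (by norm_num)
        _ ≤ 4 * T ^ ((1:ℝ) / 2) :=
            mul_le_mul_of_nonneg_left (err_le (by linarith) (by linarith) (by norm_num) (by norm_num)) (by norm_num)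
        _ ≤ k ^ 2 * T := hT1 k h.kT
    have r2 : k ^ 2 * T ≤ k ^ 2 * (T * WW k J b) := by
      refine mul_le_mul_of_nonneg_left ?_ (sq_nonneg k)
      nlinarith
    have r3 : 0 ≤ C' * k ^ 2 * (T * WW k J b) := by positivity
    nlinarith
  · have hmul := h4 b J (QE k K) K _ (by have := h.b0; omega) h.mono
      (fun j _ m hm => by unfold QE; rw [if_neg (by omega)]) (le_refl (4 ^ b 0 * ∏ j ∈ range (J + 1), b (j + 1) ^ K j))
    have hb4 : ((4 ^ b 0 * M1 b K J : ℕ) : ℝ) ≤ T ^ e := by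
      refine le_trans ?_ (su_len h)
      push_cast
      refine mul_le_mul_of_nonneg_left ?_ (by positivity)
      nlinarith
    simp_rw [Dr_shift]
    obtain ⟨g1, g2⟩ := GS1_sum h2 hC1 l1 l2 h heC ∅
    have g3 : (∏ j ∈ range (J + 1), if j ∈ (∅ : Finset ℕ) then Real.exp (-((K j : ℝ) / 100)) else 1) = 1 :=
      prod_eq_one fun j _ => by simp
    rw [g3, one_mul] at g2
    refine (mv_f _ (fun n => (mu0 (b 0) * fQ b J (QE k K)) n) (y2 T) (T1 := T / 2) (T2 := 4 * T)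
        (A := 1) (B := T ^ e) (by linarith)
        (fun n => norm_shift_le _ hΔ n)
        (fun n hn => by
          have := (hmul.1 n hn).1
          refine le_trans ?_ hb4
          exact_mod_cast this)
        (fun n => (h5 b J K k hk1 n).2.2.2) (Real.rpow_nonneg hT0.le _)).trans ?_
    have s1 : ∑ n ∈ (Icc 1 (y2 T)).filter (fun n => (mu0 (b 0) * fQ b J (QE k K)) n ≠ 0),
        (mu0 (b 0) * fQ b J (QE k K)) n ^ 2 / (n : ℝ) ≤ C' * Real.log (2 / k) * WW k J b := by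
      calc _ ≤ ∑ n ∈ Icc 1 (y2 T), (mu0 (b 0) * fQ b J (QE k K)) n ^ 2 / (n : ℝ) :=
            sum_le_sum_of_subset_of_nonneg (filter_subset _ _) fun _ _ _ => by positivity
        _ ≤ (∑ d ∈ Icc 1 (y2 T), mu0 (b 0) d ^ 2 / (d : ℝ)) * ∑ m ∈ Icc 1 (y2 T), fQ b J (QE k K) m ^ 2 / (m : ℝ) := by
            refine conv_sum (u := b 0) (fun n hn => ?_) (fun n hn p hp hpn => ?_) (y2 T)
            · by_contra h0
              apply hn
              show (if n ∈ Nat.smoothNumbers (b 0) then ((ArithmeticFunction.moebius n : ℤ) : ℝ) else 0) = 0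
              rw [if_neg h0]
            · by_contra hlt
              apply hn
              show (if n ∈ Nat.smoothNumbers (b (J + 1)) ∧ Ob 0 (b 0) n = 0 then _ else (0:ℝ)) = 0
              rw [if_neg]
              rintro ⟨q1, q2⟩
              have := Ob_pos (a := 0) (b := b 0) hp hpn (sm_iff.mp q1).1 ⟨Nat.zero_le _, by omega⟩
              omega
        _ ≤ (C' * Real.log (2 / k)) * WW k J b := by
            refine mul_le_mul ((mu0_sum _ _).trans (hRN k J K b h).2.2.1) ?_ (sum_nonneg fun _ _ => by positivity)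
              (mul_nonneg hC'0.le hlk)
            refine le_trans ?_ g2
            refine le_trans ?_ (fin_le_SS (F := (Icc 1 (y2 T)).filter (fun n => n ∈ Nat.smoothNumbers (b (J + 1)))) g1
              (fun n _ => GS1_nonneg ∅ k J K b n) fun n hn => (mem_filter.mp hn).2)
            rw [sum_filter]
            refine sum_le_sum fun n _ => ?_
            by_cases hn : n ∈ Nat.smoothNumbers (b (J + 1))
            · rw [if_pos hn]
              exact div_le_div_of_nonneg_right (GS1_QE h1 h.mono h.k0.le h.k1 n) (Nat.cast_nonneg n)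
            · rw [if_neg hn]
              have : fQ b J (QE k K) n = 0 := by
                by_contra h0
                exact hn (hmul.2.1 n h0).2
              rw [this]; simp
    have s2 : 4 * (y2 T : ℝ) * (T ^ e * 1) ^ 2 ≤ k ^ 2 * T := by
      calc 4 * (y2 T : ℝ) * (T ^ e * 1) ^ 2 = 4 * (y2 T * (T ^ e) ^ (2:ℝ)) := by
            rw [show (T ^ e) ^ (2:ℝ) = (T ^ e) ^ 2 by
              rw [show (2:ℝ) = ((2:ℕ) : ℝ) by norm_num, Real.rpow_natCast]]
            ring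
        _ ≤ 4 * T ^ ((1:ℝ) / 2) :=
            mul_le_mul_of_nonneg_left (err_le (by linarith) (by linarith) (by norm_num) (by norm_num)) (by norm_num)
        _ ≤ k ^ 2 * T := hT1 k h.kT
    have s3 : (4 * T - T / 2) * (∑ n ∈ (Icc 1 (y2 T)).filter (fun n => (mu0 (b 0) * fQ b J (QE k K)) n ≠ 0),
        (mu0 (b 0) * fQ b J (QE k K)) n ^ 2 / (n : ℝ)) ≤ (4 * T - T / 2) * (C' * Real.log (2 / k) * WW k J b) :=
      mul_le_mul_of_nonneg_left s1 (by linarith)
    have s4 : k ^ 2 ≤ 2 * Real.log (2 / k) := by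
      have hk2 : k ^ 2 ≤ 1 := pow_le_one₀ h.k0.le h.k1
      have : Real.log 2 ≤ Real.log (2 / k) := by
        refine Real.log_le_log (by norm_num) ?_
        rw [le_div_iff₀ h.k0]; nlinarith [h.k1]
      have := Real.log_two_gt_d9
      linarith
    have s5 : k ^ 2 * T ≤ 2 * Real.log (2 / k) * (T * WW k J b) := by
      have : T ≤ T * WW k J b := by nlinarith
      exact mul_le_mul s4 this hT0.le (by positivity)
    have s6 : 0 ≤ Real.log (2 / k) * (T * WW k J b) := by positivity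
    calc _ ≤ (4 * T - T / 2) * (C' * Real.log (2 / k) * WW k J b) + k ^ 2 * T := add_le_add s3 s2
      _ ≤ (4 * T - T / 2) * (C' * Real.log (2 / k) * WW k J b) + 2 * Real.log (2 / k) * (T * WW k J b) := by linarith
      _ = (7 / 2 * C' + 2) * (Real.log (2 / k) * (T * WW k J b)) := by ring
      _ ≤ (4 * C' + 10) * (Real.log (2 / k) * (T * WW k J b)) :=
          mul_le_mul_of_nonneg_right (by linarith) s6
      _ = _ := by ring

end Pool.Agent.Q251.KZ
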