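import Pool.Agent.Q251.KZ.Cm

set_option autoImplicit false

/-! Project KZ, lemma job UY: the mean square of the tilt. -/

namespace Pool.Agent.Q251.KZ

open Pool.Agent.Q276.CD Pool.Agent.Q276.KZ Pool.Agent.Q251.CD Finset MeasureTheory Filter

/-- local values of the indicator function of `1` -/
def d0' (_p a : ℕ) : ℝ := if a = 0 then 1 else 0

/-- weights -/
noncomputable def wU (K : ℕ → ℕ) (j o : ℕ) : ℝ := if o = 0 then 1 else (1 / 16) ^ K j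

/-- local values -/
noncomputable def fU (k : ℝ) (_j o p a : ℕ) : ℝ := if o = 0 then ek k p a ^ 2 else ek 40 p a ^ 2

/-- the majorant of the sum of the squares of the coefficients -/
noncomputable def GU (k : ℝ) (J : ℕ) (K b : ℕ → ℕ) (n : ℕ) : ℝ :=
  low b d0' n * ∏ j ∈ range (J + 1), ∑ o ∈ ({0, 1} : Finset ℕ), wU K j o * blk b j (fU k j o) n

lemma low_nonneg {b : ℕ → ℕ} {φ : ℕ → ℕ → ℝ} (h : ∀ p a, 0 ≤ φ p a) (n : ℕ) : 0 ≤ low b φ n :=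
  mf_nonneg (fun p a => by split_ifs; exacts [h p a, zero_le_one]) n

lemma blk_nonneg {b : ℕ → ℕ} {j : ℕ} {φ : ℕ → ℕ → ℝ} (h : ∀ p a, 0 ≤ φ p a) (n : ℕ) : 0 ≤ blk b j φ n :=
  mf_nonneg (fun p a => by split_ifs; exacts [h p a, zero_le_one]) n

lemma d0'_nonneg (p a : ℕ) : 0 ≤ d0' p a := by unfold d0'; split_ifs <;> norm_num

lemma fU_nonneg (k : ℝ) (j o p a : ℕ) : 0 ≤ fU k j o p a := by unfold fU; split_ifs <;> positivity

lemma wU_nonneg (K : ℕ → ℕ) (j o : ℕ) : 0 ≤ wU K j o := by unfold wU; split_ifs <;> positivity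

lemma GU_nonneg (k : ℝ) (J : ℕ) (K b : ℕ → ℕ) (n : ℕ) : 0 ≤ GU k J K b n :=
  mul_nonneg (low_nonneg d0'_nonneg n) (prod_nonneg fun j _ => sum_nonneg fun o _ =>
    mul_nonneg (wU_nonneg K j o) (blk_nonneg (fU_nonneg k j o) n))

lemma GU_ge (h1 : P_FS) {b : ℕ → ℕ} {J : ℕ} {K : ℕ → ℕ} {k : ℝ} (hb : ∀ j ≤ J, b j ≤ b (j + 1)) (hk : 0 ≤ k)
    (hk1 : k ≤ 1) (n : ℕ) : ∑ c ∈ (range (J + 1)).powerset, fQ b J (QX k K c) n ^ 2 ≤ GU k J K b n := by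
  have e1 : ∀ c ∈ (range (J + 1)).powerset, fQ b J (QX k K c) n ^ 2 ≤ low b d0' n *
      ((∏ j ∈ c, (1 / 16) ^ K j * blk b j (fun p a => ek 40 p a ^ 2) n) *
        ∏ j ∈ range (J + 1) \ c, blk b j (fun p a => ek k p a ^ 2) n) := by
    intro c hc
    rw [mem_powerset] at hc
    refine ((h1 b J K k hb hk hk1 n).1 c).trans (le_of_eq ?_)
    rw [prod_ite]
    congr 2
    · refine prod_congr ?_ fun _ _ => rfl
      ext j; rw [mem_filter]; exact ⟨fun h => h.2, fun h => ⟨hc h, h⟩⟩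
    · refine prod_congr ?_ fun _ _ => rfl
      ext j; rw [mem_filter, Finset.mem_sdiff]
  refine (sum_le_sum e1).trans (le_of_eq ?_)
  rw [← mul_sum, ← prod_add]
  unfold GU
  congr 1
  refine prod_congr rfl fun j _ => ?_
  rw [sum_pair (by norm_num : (0:ℕ) ≠ 1)]
  have g1 : wU K j 0 = 1 := by simp [wU]
  have g2 : wU K j 1 = (1 / 16) ^ K j := by simp [wU]
  have g3 : fU k j 0 = fun p a => ek k p a ^ 2 := by funext p a; simp [fU]
  have g4 : fU k j 1 = fun p a => ek 40 p a ^ 2 := by funext p a; simp [fU]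
  rw [g1, g2, g3, g4]
  ring

lemma GU_sum (h2 : P_GL) {C : ℝ} (hC1 : 1 ≤ C)
    (l1 : ∀ p : ℕ, p.Prime → (Summable fun a : ℕ => ek 40 p a ^ 2 / (p : ℝ) ^ a) ∧
      ∑' a : ℕ, ek 40 p a ^ 2 / (p : ℝ) ^ a ≤ Real.exp (C / p))
    (l2 : ∀ p : ℕ, p.Prime → ∀ k : ℝ, 0 ≤ k → k ≤ 1 → (Summable fun a : ℕ => ek k p a ^ 2 / (p : ℝ) ^ a) ∧
      ∑' a : ℕ, ek k p a ^ 2 / (p : ℝ) ^ a ≤ Real.exp (k ^ 2 / p))
    {e C3 T k : ℝ} {J : ℕ} {K b : ℕ → ℕ} (h : Su e C3 T k J K b) (hCe : C * e ≤ 1 / 2) :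
    Sb (b (J + 1)) (GU k J K b) ∧ SS (b (J + 1)) (GU k J K b) ≤ (1 + 2 * k ^ 2) * WW k J b := by
  have hg := h2 b J {0, 1} d0' (wU K) (fU k) h.mono (fun p => by simp [d0'])
    (fun j o p => by unfold fU; split_ifs <;> simp [ek])
    (fun p _ _ => (sum_ite0 p).1)
    (fun j _ o _ p hp => by
      have hpp : p.Prime := by
        unfold bp at hp
        exact Nat.prime_of_mem_primesBelow (mem_filter.mp hp).1
      unfold fU
      split_ifs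
      · simpa only [abs_sq] using (l2 p hpp k h.k0.le h.k1).1
      · simpa only [abs_sq] using (l1 p hpp).1)
  have hS : Sb (b (J + 1)) (GU k J K b) := by
    refine Sb_of_le hg.1 fun n _ => ?_
    exact le_of_eq rfl
  refine ⟨hS, ?_⟩
  have e1 : SS (b (J + 1)) (GU k J K b) = (∏ p ∈ Nat.primesBelow (b 0), ∑' a : ℕ, d0' p a / (p : ℝ) ^ a) *
    ∏ j ∈ range (J + 1), ∑ o ∈ ({0, 1} : Finset ℕ), wU K j o * ∏ p ∈ bp b j, ∑' a : ℕ, fU k j o p a / (p : ℝ) ^ a := hg.2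
  have e2 : ∏ p ∈ Nat.primesBelow (b 0), ∑' a : ℕ, d0' p a / (p : ℝ) ^ a = 1 :=
    prod_eq_one fun p _ => (sum_ite0 p).2
  rw [e1, e2, one_mul]
  have hpp : ∀ j, ∀ p ∈ bp b j, p.Prime := fun j p hp => by
    unfold bp at hp
    exact Nat.prime_of_mem_primesBelow (mem_filter.mp hp).1
  have e3 : ∀ j ∈ range (J + 1), ∑ o ∈ ({0, 1} : Finset ℕ), wU K j o * ∏ p ∈ bp b j, ∑' a : ℕ, fU k j o p a / (p : ℝ) ^ a ≤
      Real.exp (k ^ 2 * (R1 (b (j + 1)) - R1 (b j)) + Real.exp (-((K j : ℝ) / 100))) := by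
    intro j hj
    rw [mem_range] at hj
    have hjJ : j ≤ J := by omega
    rw [sum_pair (by norm_num : (0:ℕ) ≠ 1)]
    simp only [wU, fU, if_true, if_false, one_ne_zero, one_mul]
    have hD := blk_sum (h.mono j hjJ)
    have hD0 : 0 ≤ R1 (b (j + 1)) - R1 (b j) := sub_nonneg.mpr (R1_mono (h.mono j hjJ))
    have f1 : ∏ p ∈ bp b j, ∑' a : ℕ, ek k p a ^ 2 / (p : ℝ) ^ a ≤ Real.exp (k ^ 2 * (R1 (b (j + 1)) - R1 (b j))) := by
      rw [← hD, mul_sum, Real.exp_sum]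
      refine prod_le_prod (fun p _ => tsum_nonneg fun a => by positivity) fun p hp => ?_
      have := (l2 p (hpp j p hp) k h.k0.le h.k1).2
      rwa [mul_one_div]
    have f2 : ∏ p ∈ bp b j, ∑' a : ℕ, ek 40 p a ^ 2 / (p : ℝ) ^ a ≤ Real.exp (C * (R1 (b (j + 1)) - R1 (b j))) := by
      rw [← hD, mul_sum, Real.exp_sum]
      refine prod_le_prod (fun p _ => tsum_nonneg fun a => by positivity) fun p hp => ?_
      have := (l1 p (hpp j p hp)).2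
      rwa [mul_one_div]
    have f3 : C * (R1 (b (j + 1)) - R1 (b j)) ≤ (K j : ℝ) / 2 := by
      have := h.var j hjJ
      have hK : (0:ℝ) ≤ K j := Nat.cast_nonneg _
      nlinarith
    have f4 : ((1:ℝ) / 16) ^ K j * Real.exp (C * (R1 (b (j + 1)) - R1 (b j))) ≤ Real.exp (-((K j : ℝ) / 100)) := by
      have g1 : ((1:ℝ) / 16) ^ K j ≤ Real.exp (-(K j : ℝ)) := by
        have g2 : (1:ℝ) / 16 ≤ Real.exp (-1) := by
          rw [Real.exp_neg, one_div]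
          refine inv_anti₀ (Real.exp_pos 1) ?_
          have := Real.exp_one_lt_d9
          linarith
        calc ((1:ℝ) / 16) ^ K j ≤ (Real.exp (-1)) ^ K j := pow_le_pow_left₀ (by norm_num) g2 _
          _ = Real.exp (-(K j : ℝ)) := by rw [← Real.exp_nat_mul]; ring_nf
      calc ((1:ℝ) / 16) ^ K j * Real.exp (C * (R1 (b (j + 1)) - R1 (b j)))
          ≤ Real.exp (-(K j : ℝ)) * Real.exp ((K j : ℝ) / 2) :=
            mul_le_mul g1 (Real.exp_le_exp.mpr f3) (Real.exp_pos _).le (Real.exp_pos _).le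
        _ = Real.exp (-(K j : ℝ) + (K j : ℝ) / 2) := by rw [Real.exp_add]
        _ ≤ Real.exp (-((K j : ℝ) / 100)) := by
            refine Real.exp_le_exp.mpr ?_
            have hK : (0:ℝ) ≤ K j := Nat.cast_nonneg _
            linarith
    have f5 : ((1:ℝ) / 16) ^ K j * ∏ p ∈ bp b j, ∑' a : ℕ, ek 40 p a ^ 2 / (p : ℝ) ^ a ≤ Real.exp (-((K j : ℝ) / 100)) :=
      (mul_le_mul_of_nonneg_left f2 (by positivity)).trans f4
    have f6 : 1 ≤ Real.exp (k ^ 2 * (R1 (b (j + 1)) - R1 (b j))) := Real.one_le_exp (by positivity)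
    calc ∏ p ∈ bp b j, ∑' a : ℕ, ek k p a ^ 2 / (p : ℝ) ^ a + (1 / 16) ^ K j * ∏ p ∈ bp b j, ∑' a : ℕ, ek 40 p a ^ 2 / (p : ℝ) ^ a
        ≤ Real.exp (k ^ 2 * (R1 (b (j + 1)) - R1 (b j))) + Real.exp (-((K j : ℝ) / 100)) := add_le_add f1 f5
      _ ≤ Real.exp (k ^ 2 * (R1 (b (j + 1)) - R1 (b j))) * (1 + Real.exp (-((K j : ℝ) / 100))) := by
          nlinarith [Real.exp_pos (-((K j : ℝ) / 100))]
      _ ≤ Real.exp (k ^ 2 * (R1 (b (j + 1)) - R1 (b j))) * Real.exp (Real.exp (-((K j : ℝ) / 100))) := by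
          refine mul_le_mul_of_nonneg_left ?_ (Real.exp_pos _).le
          linarith [Real.add_one_le_exp (Real.exp (-((K j : ℝ) / 100)))]
      _ = _ := by rw [← Real.exp_add]
  have e4 : ∏ j ∈ range (J + 1), ∑ o ∈ ({0, 1} : Finset ℕ), wU K j o * ∏ p ∈ bp b j, ∑' a : ℕ, fU k j o p a / (p : ℝ) ^ a ≤
      Real.exp (∑ j ∈ range (J + 1), (k ^ 2 * (R1 (b (j + 1)) - R1 (b j)) + Real.exp (-((K j : ℝ) / 100)))) := by
    rw [Real.exp_sum]
    refine prod_le_prod (fun j _ => sum_nonneg fun o _ => mul_nonneg (wU_nonneg K j o) (prod_nonneg fun p _ =>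
      tsum_nonneg fun a => div_nonneg (fU_nonneg k j o p a) (by positivity))) e3
  refine e4.trans ?_
  rw [sum_add_distrib, ← mul_sum, tele, Real.exp_add, mul_comm (1 + 2 * k ^ 2)]
  have hk2 : k ^ 2 ≤ 1 := pow_le_one₀ h.k0.le h.k1
  refine mul_le_mul ?_ ?_ (Real.exp_pos _).le (zero_le_one.trans (one_le_WW k J b))
  · unfold WW
    refine Real.exp_le_exp.mpr (mul_le_mul_of_nonneg_left ?_ (sq_nonneg k))
    linarith [R1_nonneg (b 0)]
  · exact (Real.exp_le_exp.mpr h.err).trans (exp_le_two (sq_nonneg k) hk2)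

lemma QX_zero {k : ℝ} {K : ℕ → ℕ} {c : Finset ℕ} {j m : ℕ} (h : K j < m) : QX k K c j m = 0 := by
  unfold QX QH QE
  split_ifs <;> first | rfl | omega

/-- `4 T ^ (1/2) ≤ k² T` -/
lemma ev_err : ∀ᶠ T : ℝ in atTop, ∀ k : ℝ, Real.log T ^ (-(1 / 5) : ℝ) ≤ k →
    4 * T ^ ((1:ℝ) / 2) ≤ k ^ 2 * T := by
  filter_upwards [ev_log (c := 1 / 4) (e := 1 / 2) (by norm_num) (by norm_num), eventually_ge_atTop (16:ℝ),
    Real.tendsto_log_atTop.eventually_ge_atTop 4] with T h1 h2 h3 k hk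
  have hT : 0 < T := by linarith
  have hL : 0 < Real.log T := by linarith
  have e0 : 0 < Real.log T ^ (-(1 / 5) : ℝ) := Real.rpow_pos_of_pos hL _
  have e1 : 1 / Real.log T ≤ k ^ 2 := by
    calc 1 / Real.log T = Real.log T ^ (-1 : ℝ) := by rw [Real.rpow_neg_one, one_div]
      _ ≤ Real.log T ^ (-(2 / 5) : ℝ) := Real.rpow_le_rpow_of_exponent_le (by linarith) (by norm_num)
      _ = (Real.log T ^ (-(1 / 5) : ℝ)) ^ 2 := by
          rw [← Real.rpow_natCast, ← Real.rpow_mul hL.le]; norm_num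
      _ ≤ k ^ 2 := pow_le_pow_left₀ e0.le hk 2
  have e2 : T = T ^ ((1:ℝ) / 2) * T ^ ((1:ℝ) / 2) := by
    rw [← Real.rpow_add hT]; norm_num
  have e3 : 0 < T ^ ((1:ℝ) / 2) := Real.rpow_pos_of_pos hT _
  have e4 : 4 * T ^ ((1:ℝ) / 2) ≤ 1 / Real.log T * T := by
    rw [div_mul_eq_mul_div, one_mul, le_div_iff₀ hL]
    nlinarith
  exact e4.trans (mul_le_mul_of_nonneg_right e1 hT.le)

/-- the size of the error term -/
lemma err_le {T e m : ℝ} (hT : 1 ≤ T) (he : e ≤ 1 / 20) (hm : m ≤ 9) (hm0 : 0 ≤ m) :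
    (y2 T : ℝ) * (T ^ e) ^ m ≤ T ^ ((1:ℝ) / 2) := by
  have hT0 : 0 < T := by linarith
  have h1 : (y2 T : ℝ) ≤ T ^ ((1:ℝ) / 20) := Nat.floor_le (Real.rpow_nonneg hT0.le _)
  calc (y2 T : ℝ) * (T ^ e) ^ m ≤ T ^ ((1:ℝ) / 20) * (T ^ e) ^ m :=
        mul_le_mul_of_nonneg_right h1 (by positivity)
    _ = T ^ ((1:ℝ) / 20 + e * m) := by rw [← Real.rpow_mul hT0.le, ← Real.rpow_add hT0]
    _ ≤ T ^ ((1:ℝ) / 2) := Real.rpow_le_rpow_of_exponent_le hT (by nlinarith)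

theorem t_UY (h1 : P_FS) (h2 : P_GL) (h3 : P_LC) (h4 : P_PRM) (h5 : P_FA) : P_UY := by
  classical
  obtain ⟨C, hC1, hC⟩ := h3
  have l1 : ∀ p : ℕ, p.Prime → (Summable fun a : ℕ => ek 40 p a ^ 2 / (p : ℝ) ^ a) ∧
      ∑' a : ℕ, ek 40 p a ^ 2 / (p : ℝ) ^ a ≤ Real.exp (C / p) := fun p hp =>
    (hC p hp 1 le_rfl (by norm_num) 1 (by norm_num) le_rfl).2.2.2.2.1
  have l2 : ∀ p : ℕ, p.Prime → ∀ k : ℝ, 0 ≤ k → k ≤ 1 → (Summable fun a : ℕ => ek k p a ^ 2 / (p : ℝ) ^ a) ∧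
      ∑' a : ℕ, ek k p a ^ 2 / (p : ℝ) ^ a ≤ Real.exp (k ^ 2 / p) := fun p hp k h0 h1 =>
    (hC p hp 1 le_rfl (by norm_num) k h0 h1).2.2.2.2.2.1
  refine ⟨min (1 / 20) (1 / (2 * C)), by positivity, fun e he hee C3 _ => ⟨3, by norm_num, ?_⟩⟩
  have he20 : e ≤ 1 / 20 := hee.trans (min_le_left _ _)
  have heC : C * e ≤ 1 / 2 := by
    have := hee.trans (min_le_right _ _)
    calc C * e ≤ C * (1 / (2 * C)) := mul_le_mul_of_nonneg_left this (by linarith)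
      _ = 1 / 2 := by field_simp
  filter_upwards [ev_err, eventually_ge_atTop (16:ℝ)] with T hT1 hT16 k J K b h
  have hT0 : 0 < T := by linarith
  obtain ⟨g1, g2⟩ := GU_sum h2 hC1 l1 l2 h heC
  have hM1 := su_M1 h
  have hMT := su_M1T h
  have hM0 : (0:ℝ) ≤ M1 b K J := by linarith
  have hfs : ∀ c : Finset ℕ, ∀ n, fQ b J (QX k K c) n ≠ 0 →
      n ≤ M1 b K J ∧ n ∈ Nat.smoothNumbers (b (J + 1)) := fun c n hn =>
    (h4 b J (QX k K c) K (4 ^ b 0 * M1 b K J) (by have := h.b0; omega) h.mono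
      (fun j _ m hm => QX_zero hm) le_rfl).2.1 n hn
  have hk1 : |k| ≤ 1 := by rw [abs_of_pos h.k0]; exact h.k1
  have hint : ∀ c ∈ (range (J + 1)).powerset, ∫ t in T..(2 * T), ‖Dr (fQ b J (QX k K c)) (y2 T) (cl t)‖ ^ 2 ≤
      T * (∑ n ∈ (Icc 1 (y2 T)).filter (fun n => n ∈ Nat.smoothNumbers (b (J + 1))),
        fQ b J (QX k K c) n ^ 2 / (n : ℝ)) + 4 * y2 T * ((M1 b K J : ℝ) * (M1 b K J : ℝ)) ^ 2 := by
    intro c _
    refine (mv_f (fun n => ((fQ b J (QX k K c) n : ℝ) : ℂ)) (fQ b J (QX k K c)) (y2 T) (T1 := T) (T2 := 2 * T)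
      (A := (M1 b K J : ℝ)) (B := (M1 b K J : ℝ)) (by linarith)
      (fun n => by rw [Complex.norm_real, Real.norm_eq_abs])
      (fun n hn => by exact_mod_cast (hfs c n hn).1)
      (fun n => ((h5 b J K k hk1 n).1 c).trans (su_ten h)) hM0).trans ?_
    rw [show 2 * T - T = T by ring]
    refine add_le_add (mul_le_mul_of_nonneg_left ?_ hT0.le) le_rfl
    refine sum_le_sum_of_subset_of_nonneg (fun n hn => ?_) fun _ _ _ => by positivity
    rw [mem_filter] at hn ⊢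
    exact ⟨hn.1, (hfs c n hn.2).2⟩
  refine (sum_le_sum hint).trans ?_
  rw [sum_add_distrib, ← mul_sum, sum_comm, sum_const, card_powerset, card_range, nsmul_eq_mul]
  have hmain : ∑ n ∈ (Icc 1 (y2 T)).filter (fun n => n ∈ Nat.smoothNumbers (b (J + 1))),
      ∑ c ∈ (range (J + 1)).powerset, fQ b J (QX k K c) n ^ 2 / (n : ℝ) ≤ (1 + 2 * k ^ 2) * WW k J b := by
    refine le_trans ?_ g2
    refine le_trans ?_ (fin_le_SS (F := (Icc 1 (y2 T)).filter (fun n => n ∈ Nat.smoothNumbers (b (J + 1)))) g1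
      (fun n _ => GU_nonneg k J K b n) fun n hn => (mem_filter.mp hn).2)
    refine sum_le_sum fun n _ => ?_
    rw [← sum_div]
    exact div_le_div_of_nonneg_right (GU_ge h1 h.mono h.k0.le h.k1 n) (Nat.cast_nonneg n)
  have herr : ((2 ^ (J + 1) : ℕ) : ℝ) * (4 * y2 T * ((M1 b K J : ℝ) * (M1 b K J : ℝ)) ^ 2) ≤ k ^ 2 * T := by
    have q1 : ((2 ^ (J + 1) : ℕ) : ℝ) ≤ M1 b K J := by
      have := su_two h he (by linarith)
      push_cast
      exact this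
    have q2 : (M1 b K J : ℝ) * ((M1 b K J : ℝ) * (M1 b K J : ℝ)) ^ 2 ≤ (T ^ e) ^ (5:ℝ) := by
      have : (M1 b K J : ℝ) ^ 5 ≤ (T ^ e) ^ 5 := pow_le_pow_left₀ hM0 hMT 5
      rw [show (T ^ e) ^ (5:ℝ) = (T ^ e) ^ 5 by
        rw [show (5:ℝ) = ((5:ℕ) : ℝ) by norm_num, Real.rpow_natCast]]
      calc (M1 b K J : ℝ) * ((M1 b K J : ℝ) * (M1 b K J : ℝ)) ^ 2 = (M1 b K J : ℝ) ^ 5 := by ring
        _ ≤ _ := this
    calc ((2 ^ (J + 1) : ℕ) : ℝ) * (4 * y2 T * ((M1 b K J : ℝ) * (M1 b K J : ℝ)) ^ 2)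
        ≤ (M1 b K J : ℝ) * (4 * y2 T * ((M1 b K J : ℝ) * (M1 b K J : ℝ)) ^ 2) :=
          mul_le_mul_of_nonneg_right q1 (by positivity)
      _ = 4 * (y2 T * ((M1 b K J : ℝ) * ((M1 b K J : ℝ) * (M1 b K J : ℝ)) ^ 2)) := by ring
      _ ≤ 4 * (y2 T * (T ^ e) ^ (5:ℝ)) := by
          refine mul_le_mul_of_nonneg_left (mul_le_mul_of_nonneg_left q2 (Nat.cast_nonneg _)) (by norm_num)
      _ ≤ 4 * T ^ ((1:ℝ) / 2) :=
          mul_le_mul_of_nonneg_left (err_le (by linarith) he20 (by norm_num) (by norm_num)) (by norm_num)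
      _ ≤ k ^ 2 * T := hT1 k h.kT
  have hW := one_le_WW k J b
  have r1 := mul_le_mul_of_nonneg_left hmain hT0.le
  have r2 : k ^ 2 * T ≤ k ^ 2 * (T * WW k J b) := by
    refine mul_le_mul_of_nonneg_left ?_ (sq_nonneg k)
    nlinarith
  calc _ ≤ T * ((1 + 2 * k ^ 2) * WW k J b) + k ^ 2 * T := add_le_add r1 herr
    _ ≤ T * ((1 + 2 * k ^ 2) * WW k J b) + k ^ 2 * (T * WW k J b) := by linarith
    _ = (1 + 3 * k ^ 2) * (T * WW k J b) := by ring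

end Pool.Agent.Q251.KZ
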